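import Pool.Agent.Lib.MP_e97e2b_nt.RT.Loc.Good

/-!
Two criteria for good reduction.
-/

set_option autoImplicit false
set_option linter.unusedSectionVars false

noncomputable section

namespace RG.B2.RT

open M4 M4.B2 Matrix Finset

theorem norm_fix {p : ℕ} [Fact p.Prime] {I : Subgroup (PadicAlgCl p ≃ₐ[ℚ_[p]] PadicAlgCl p)}
    (hI : ∀ t, Hb.Ine t → t ∈ I) (H : Subgroup I) [H.FiniteIndex] {z : PadicAlgCl p}
    (h : ∀ t ∈ H, t.1 z = z) : ∃ q : ℚ_[p], ‖z‖ ^ H.index = ‖q‖ := by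
  have := H.fintypeQuotientOfFiniteIndex
  obtain ⟨F, hF⟩ : ∃ F : I ⧸ H → PadicAlgCl p, ∀ t : I, F t = t.1 z :=
    ⟨Quotient.lift (fun t => t.1 z) fun a b hab => by
      have h1 := congrArg a.1 (h _ (QuotientGroup.leftRel_apply.1 hab))
      rw [← AlgEquiv.mul_apply, ← Subgroup.coe_mul, mul_inv_cancel_left] at h1
      exact h1.symm, fun _ => rfl⟩
  obtain ⟨q, hq⟩ := Hb.norm_of_ine (x := ∏ c, F c) fun t ht => by
    rw [map_prod, ← Equiv.prod_comp (MulAction.toPerm (⟨t, hI t ht⟩ : I)) F]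
    refine prod_congr rfl fun c _ => ?_
    obtain ⟨a, rfl⟩ := QuotientGroup.mk_surjective c
    rw [MulAction.toPerm_apply, MulAction.Quotient.smul_mk, hF, hF]
    rfl
  refine ⟨q, ?_⟩
  rw [← hq, norm_prod, Subgroup.index_eq_card, Nat.card_eq_fintype_card, ← card_univ, ← prod_const]
  refine prod_congr rfl fun c _ => ?_
  obtain ⟨a, rfl⟩ := QuotientGroup.mk_surjective c
  rw [hF, norm_aut]

variable [Dim] {τ : Mat} {P : Nat.Primes} {e : ℂ ≃+* PadicAlgCl P}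

theorem away_mem {M k : ℕ} {z : VA} (h : (M * P.1 ^ k) • z ∈ TA) :
    M • (z - iV P (cV P z)) ∈ TA := mem_TA_iff.2 fun l i => by
  rw [cV_nsmul, cV_sub]
  by_cases hl : l = P
  · subst hl
    simp
  · have h1 := mem_TA_iff.1 h l i
    have h2 : ‖((P.1 : ℕ) : ℚ_[l])‖ = 1 := (Padic.norm_natCast_eq_one_iff (p := l)).2
      ((Nat.coprime_primes l.2 P.2).2 fun h3 => hl (Subtype.ext h3))
    rw [cV_nsmul] at h1
    rw [cV_iV_ne hl, sub_zero]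
    simpa [h2] using h1

variable (hτ : InH τ)
include hτ

theorem XA_Nv {i0 : Bits} (h1 : A0 τ e (qM i0) = Mx τ e 0) (z : VA) :
    (∀ i, ‖e (XA τ i0 i z)‖ ≤ Nv τ e (2 • z)) ∧ ∃ i, ‖e (XA τ i0 i z)‖ = Nv τ e (2 • z) := by
  simp only [norm_XA e hτ, h1]
  refine ⟨fun i => le_Nv e hτ (by rw [add_sub_cancel_left]; exact qM_mem i), ?_⟩
  obtain ⟨i, hi⟩ := exists_Mx (τ := τ) e (2 • z)
  exact ⟨i, by rw [Nv, hi]⟩

section

variable {t : PadicAlgCl P ≃ₐ[ℚ_[P]] PadicAlgCl P} {R : ∀ l : Nat.Primes, GL ν ℤ_[l]}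
  (hR : Fw τ (cj e t) R)
include hR

theorem Nv_rho (z : VA) : Nv τ e (rho R z) = Nv τ e z := by
  obtain ⟨i0, h0, h1⟩ := exists_i0 e hτ
  obtain ⟨c, π, ζ, -, h2, h3⟩ := hR.mono hτ h0
  have h4 : ∀ i x, ‖e (XA τ i0 i x)‖ = ‖e c‖ * ‖e (XA τ i0 (π i) (rho R x))‖ := fun i x => by
    rw [← norm_aut t, ← e_cj, h3, map_mul, map_mul, norm_mul, norm_mul,
      norm_root (x := e (ζ i)) (n := 8) (by norm_num) (by rw [← map_pow, h2, map_one]), mul_one]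
  have h5 : ∀ x, Nv τ e (2 • x) = ‖e c‖ * Nv τ e (2 • rho R x) := fun x => by
    obtain ⟨a1, i, a2⟩ := XA_Nv hτ h1 x
    obtain ⟨b1, j, b2⟩ := XA_Nv hτ h1 (rho R x)
    obtain ⟨j, rfl⟩ := π.surjective j
    refine le_antisymm ?_ (by rw [← b2, ← h4]; exact a1 j)
    rw [← a2, h4]
    exact mul_le_mul_of_nonneg_left (b1 _) (norm_nonneg _)
  have h6 := h5 0
  rw [map_zero, smul_zero, Nv_zero e hτ, mul_one] at h6
  have h7 := h5 ((1 / 2 : ℚ) • z)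
  rw [← h6, one_mul, ← map_nsmul, show 2 • (1 / 2 : ℚ) • z = z by module] at h7
  exact h7.symm

variable (hP : P.1 ≠ 2)
  (h4 : ∀ l : Nat.Primes, l.1 = 2 → ∀ i j, (4 : ℤ_[l]) ∣ ((R l).1 - 1) i j)
include hP h4

theorem pot_step (x : VA) : Nv τ e (4 • x) ^ 4 ≤ Nv τ e (rho R x - x) ^ 7 := by
  obtain ⟨w, h1, h2⟩ := Nv_div e hτ hP four_pos x
  obtain ⟨u, hu, h3⟩ := rho_sub (two_dvd (R := R) (k := 2) (by simpa using h4)) h1
  have h5 := Nv_par e hτ hP (rho R (x + w)) (x + w)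
  rw [Nv_rho hτ hR, ← pow_add, Nv_congr e hτ (z := rho R (x + w) - (x + w)) (z' := rho R x - x) (by
    refine (congrArg (· ∈ TA) ?_).mp hu
    rw [map_nsmul] at h3
    rw [map_add]
    linear_combination (norm := module) (-(1 / 4 : ℚ)) • h3)] at h5
  rw [norm_nat (N := 4) (not_dvd_two hP 2), one_pow, one_mul] at h2
  refine (pow_le_pow_left₀ (Nv_pos e hτ _).le h2 4).trans ?_
  rw [← pow_mul, mul_comm, pow_mul]
  exact pow_le_pow_left₀ (pow_pos (Nv_pos e hτ _) _).le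
    (h5.trans (mul_le_of_le_one_left (Nv_pos e hτ _).le (Nv_le_one e hτ hP _))) 7

variable (hu : IsUnit ((R P).1 - 1))
include hu

theorem Nv_iV (s : ν → ℚ_[P]) : Nv τ e (iV P s) = 1 := by
  obtain ⟨M, hM, hs⟩ := exists_nsmul_mem_TA (iV P s)
  obtain ⟨A, hA⟩ := hu.exists_right_inv
  obtain ⟨_, ⟨s0, h1, rfl⟩, h2⟩ := Set.exists_min_image
    {r | ∃ s, M • iV P s ∈ TA ∧ Nv τ e (iV P s) = r} id
    ((Set.finite_range fun a : ν → Fin M => Nv τ e (qM a)).subset (by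
      rintro _ ⟨s, h, rfl⟩
      obtain ⟨a, ha⟩ := exists_qM hM h
      exact ⟨a, (Nv_congr e hτ (TA.nsmul_mem ha 2)).symm⟩)) ⟨_, s, hs, rfl⟩
  have h3 := pot_step hτ hR hP h4 (iV P (mQ A *ᵥ s0))
  have h5 : mQ (R P).1 * mQ A - mQ A = 1 := by
    have := congrArg (PadicInt.Coe.ringHom (p := P)).mapMatrix hA
    rwa [sub_mul, one_mul, map_sub, map_mul, map_one] at this
  rw [rho_iV, ← map_sub, mulVec_mulVec, ← sub_mulVec, h5, one_mulVec, ← map_nsmul] at h3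
  have h6 := h2 _ ⟨4 • mQ A *ᵥ s0, by
    rw [← map_nsmul, iV_mem_TA] at h1 ⊢
    rw [smul_comm, ← mulVec_smul]
    exact (IV P).nsmul_mem (mQ_mulVec_le A h1) 4, rfl⟩
  have h7 := Nv_pos e hτ (iV P s0)
  refine le_antisymm (Nv_le_one e hτ hP _) (le_trans (not_lt.1 fun h8 => ?_) (h2 _ ⟨s, hs, rfl⟩))
  exact (pow_lt_pow_right_of_lt_one₀ h7 h8 (by norm_num : 4 < 7)).not_ge
    ((pow_le_pow_left₀ h7.le h6 4).trans h3)

theorem pot : Good τ e := by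
  refine good_of e hτ hP fun x hx => le_antisymm (Nv_le_one e hτ hP x) ?_
  obtain ⟨δ, C, hδ, h⟩ := Nv_bound e hτ four_pos
  have h0 : (0 : ℝ) < ‖((P.1 : ℕ) : PadicAlgCl P)‖ := norm_pos_iff.2 (Nat.cast_ne_zero.2 P.2.ne_zero)
  refine one_le_of_pow (Nv_pos e hτ x) hδ (pow_pos h0 (Fintype.card ι)) P.2.two_le fun k => ?_
  obtain ⟨w, h1, h2⟩ := Nv_div e hτ hP (pow_pos P.2.pos k) x
  rw [show x + w = x + (w - iV P (cV P w)) + iV P (cV P w) by abel,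
    Nv_add e hτ hP (Nv_iV hτ hR hP h4 hu _), Nv_congr e hτ (z := x + _) (z' := x) (by
      rw [add_sub_cancel_left]
      exact away_mem h1), Nat.cast_pow, norm_pow, pow_right_comm] at h2
  exact (mul_le_mul_of_nonneg_left (h _ (by rw [smul_comm]; exact TA.nsmul_mem hx _)).1
    (pow_pos (pow_pos h0 _) k).le).trans h2

end

theorem nos (hP : P.1 ≠ 2) {I : Subgroup (PadicAlgCl P ≃ₐ[ℚ_[P]] PadicAlgCl P)}
    (hI : ∀ t, Hb.Ine t → t ∈ I) (R : ∀ l : Nat.Primes, I →* GL ν ℤ_[l])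
    (hR : ∀ t : I, Fw τ (cj e t) fun l => R l t) {l : Nat.Primes} (hl : l ≠ P)
    (h1 : ∀ t, R l t = 1) : Good τ e := by
  obtain ⟨i0, h0, h2⟩ := exists_i0 e hτ
  obtain ⟨H, _, hH⟩ : ∃ (H : Subgroup I) (_ : H.FiniteIndex), ∀ t ∈ H, ∀ q : Nat.Primes, q.1 = 2 →
      ∀ i j, ((2 ^ 6 : ℕ) : ℤ_[q]) ∣ ((R q t).1 - 1) i j := by
    refine ⟨((GeneralLinearGroup.map (PadicInt.toZModPow 6)).comp (R ⟨2, Nat.prime_two⟩)).ker,
      inferInstance, fun t ht q hq i j => ?_⟩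
    obtain rfl : q = ⟨2, Nat.prime_two⟩ := Subtype.ext hq
    have h3 := congrArg (fun g => g.1) (MonoidHom.mem_ker.1 ht)
    rw [Nat.cast_pow, ← Ideal.mem_span_singleton, ← PadicInt.ker_toZModPow, RingHom.mem_ker]
    have h4 : (PadicInt.toZModPow 6).mapMatrix ((R ⟨2, Nat.prime_two⟩ t).1 - 1) = 0 := by
      rw [map_sub, map_one, sub_eq_zero]
      exact h3
    exact congrFun (congrFun h4 i) j
  have h3 : ∀ (j : ℕ) (y : VA), (4 * l.1 ^ j) • y ∈ TA → Nv τ e y ≠ 1 →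
      Nv τ e y ^ H.index ≤ (P.1 : ℝ)⁻¹ := fun j y hy h4 => by
    obtain ⟨z, rfl⟩ : ∃ z : VA, y = 2 • z := ⟨(1 / 2 : ℚ) • y, by module⟩
    rw [smul_smul] at hy
    obtain ⟨-, i, hi⟩ := XA_Nv hτ h2 z
    obtain ⟨q, hq⟩ := norm_fix hI H (z := e (XA τ i0 i z)) fun t ht => by
      obtain ⟨u, hu, h5⟩ := rho_div (R := fun l => R l t) (N := 4 * l.1 ^ j * 2)
        (by have := l.2.pos; positivity) (fun q a b => by
          by_cases h6 : q = l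
          · subst h6
            simp [h1]
          obtain ⟨c, hc⟩ := two_dvd (R := fun l => R l t) (hH t ht) q a b
          rw [hc, show 4 * l.1 ^ j * 2 * (4 * l.1 ^ j * 2) = 2 ^ 6 * l.1 ^ (j + j) by ring,
            Nat.cast_mul]
          exact mul_dvd_mul_left _ (unit_dvd (fun h7 => h6 (Subtype.ext
            ((Nat.prime_dvd_prime_iff_eq q.2 l.2).1 (q.2.dvd_of_dvd_pow h7)))) c)) hy
      rw [← e_cj, (hR t).eight hτ h0 (fun q hq a b => Dvd.dvd.trans ⟨8, by norm_num⟩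
        (hH t ht q hq a b)), h5, GA_add (XA_mem hτ i0 i) (TA.nsmul_mem hu _), psi_eq_one.2, one_mul]
      refine (congrArg (· ∈ Zh) ?_).mp (Zh.neg_mem (Zh.mul_mem (ofNat_mem Zh 2) (EB_mem hu hy)))
      rw [nsmul_VA, nsmul_VA, EB_smul_left, EB_smul_right]
    rw [hi] at hq
    rw [hq]
    simpa using (Padic.norm_le_pow_iff_norm_lt_pow_add_one q (-1)).2 (by
      simpa [← hq] using pow_lt_one₀ (Nv_pos e hτ _).le
        ((Nv_le_one e hτ hP _).lt_of_ne h4) Subgroup.FiniteIndex.index_ne_zero)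
  refine good_of e hτ hP fun x hx => by_contra fun h4 => ?_
  have h5 : (1 : ℝ) < P.1 := by exact_mod_cast P.2.one_lt
  refine (inv_lt_one_of_one_lt₀ h5).not_ge (one_le_of_pow (inv_pos.2 (one_pos.trans h5))
    (pow_pos (Nv_pos e hτ x) H.index) one_pos l.2.two_le fun j => ?_)
  have h6 : l.1 ^ j • ((l.1 ^ j : ℕ) : ℚ)⁻¹ • x = x := by
    rw [← Nat.cast_smul_eq_nsmul ℚ, smul_inv_smul₀ (Nat.cast_ne_zero.2 (pow_pos l.2.pos j).ne')]
  obtain ⟨w, h7, h8⟩ := Nv_div e hτ hP (pow_pos l.2.pos j) (((l.1 ^ j : ℕ) : ℚ)⁻¹ • x)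
  rw [h6, norm_nat (fun h9 => hl (Subtype.ext
    ((Nat.prime_dvd_prime_iff_eq P.2 l.2).1 (P.2.dvd_of_dvd_pow h9)).symm)), one_pow, one_mul] at h8
  have h9 := h3 j (((l.1 ^ j : ℕ) : ℚ)⁻¹ • x + w) (by
    rw [nsmul_add, mul_smul, h6, show 4 * l.1 ^ j = 2 * (2 * l.1 ^ j) by ring, mul_smul]
    exact TA.add_mem hx (TA.nsmul_mem h7 2)) fun h9 => h4 (by
      rw [← Nv_nsmul e hτ hP h9 (l.1 ^ j), nsmul_add, h6, eq_comm]
      exact Nv_congr e hτ (by rwa [add_sub_cancel_left, smul_smul]))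
  rw [one_pow, one_mul]
  refine (pow_le_pow_left₀ (Nv_pos e hτ _).le h8 _).trans ?_
  rw [pow_right_comm]
  exact pow_le_pow_left₀ (pow_pos (Nv_pos e hτ _) _).le h9 _

end RG.B2.RT
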