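import Pool.Agent.Lib.MP_e97e2b_nt.RT.Defs
import Pool.Agent.Lib.MP_e97e2b_nt.RT.Loc.Main

/-! Good reduction and the monomial lemma. -/

set_option autoImplicit false

namespace Pool.Agent.RT

open Matrix Polynomial RG RG.B2
open _root_.M4 (InH)
open _root_.M4.B2 (cj psi)

noncomputable section

variable [Dim] {τ : Mat} {P : Nat.Primes} {e : ℂ ≃+* PadicAlgCl P}

theorem nos (hτ : InH τ) (hP : P.1 ≠ 2) (R : Fam (Inr P) ν)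
    (hR : ∀ t : Inr P, Fw τ (cj e t) fun q => R q t) (l : ℕ) [Fact l.Prime] (hl : P.1 ≠ l)
    (h1 : ∀ t, R l t = 1) : Good τ e :=
  (RG.B2.RT.nos hτ hP (I := Inr P) (fun _ h => h) (fun q => R q) hR (l := ⟨l, Fact.out⟩)
    (fun h => hl (congrArg Subtype.val h).symm) h1).imp fun _ h => ⟨h.1, h.2.1, h.2.2.2⟩

theorem pot (hτ : InH τ) (hP : P.1 ≠ 2) (t : GQ P) (R : ∀ l : Nat.Primes, GL ν ℤ_[l])
    (hR : Fw τ (cj e t) R)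
    (h4 : ∀ l : Nat.Primes, l.1 = 2 → ∀ i j, (4 : ℤ_[l]) ∣ ((R l).1 - 1) i j)
    (hu : IsUnit ((R P).1 - 1)) : Good τ e :=
  (RG.B2.RT.pot hτ hR hP h4 hu).imp fun _ h => ⟨h.1, h.2.1, h.2.2.2⟩

theorem Fw.psi (hτ : InH τ) {s : ℂ ≃+* ℂ} {R : ∀ l : Nat.Primes, GL ν ℤ_[l]} (h : Fw τ s R)
    (x y : VA) : s (psi (EB x y)) = psi (EB (rho R x) (rho R y)) := RG.B2.RT.Fw.psi hτ h x y

/-- The monomial lemma. -/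
theorem Fw.mono (hτ : InH τ) {i0 : Bits} (h0 : th2 τ i0 ≠ 0) {s : ℂ ≃+* ℂ}
    {R : ∀ l : Nat.Primes, GL ν ℤ_[l]} (h : Fw τ s R) :
    ∃ (c : ℂ) (π : Equiv.Perm Bits) (ζ : Bits → ℂ), c ≠ 0 ∧ (∀ i, ζ i ^ 8 = 1) ∧
      ∀ i x, s (XA τ i0 i x) = c * ζ i * XA τ i0 (π i) (rho R x) := RG.B2.RT.Fw.mono hτ h0 h

theorem Fw.eight (hτ : InH τ) {i0 : Bits} (h0 : th2 τ i0 ≠ 0) {s : ℂ ≃+* ℂ}
    {R : ∀ l : Nat.Primes, GL ν ℤ_[l]} (h : Fw τ s R)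
    (h8 : ∀ l : Nat.Primes, l.1 = 2 → ∀ i j, (8 : ℤ_[l]) ∣ ((R l).1 - 1) i j) (i : Bits) (x : VA) :
    s (XA τ i0 i x) = XA τ i0 i (rho R x) := RG.B2.RT.Fw.eight hτ h0 h h8 i x

end

end Pool.Agent.RT
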