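import Pool.Agent.Lib.MP_e97e2b_nt.RT.Loc.Nv

/-!
Inequalities for the absolute value of the theta function.
-/

set_option autoImplicit false
set_option linter.unusedSectionVars false

noncomputable section

namespace RG.B2.RT

open M4 M4.B2 Matrix Finset

variable [Dim] {τ : Mat} {P : Nat.Primes} (e : ℂ ≃+* PadicAlgCl P)

omit [Dim] in
theorem norm_nat {N : ℕ} (hN : ¬ P.1 ∣ N) : ‖(N : PadicAlgCl P)‖ = 1 := by
  rw [← map_natCast (algebraMap ℚ_[P] (PadicAlgCl P)), PadicAlgCl.norm_extends]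
  exact (Padic.norm_natCast_eq_one_iff (p := P) (n := N)).2
    ((Nat.Prime.coprime_iff_not_dvd P.2).2 hN)

omit [Dim] in
theorem not_dvd_two (hP : P.1 ≠ 2) (k : ℕ) : ¬ P.1 ∣ 2 ^ k := fun h =>
  hP ((Nat.prime_dvd_prime_iff_eq P.2 Nat.prime_two).1 (P.2.dvd_of_dvd_pow h))

variable (hτ : InH τ) (hP : P.1 ≠ 2)
include hτ

theorem An_half {η : VA} (h : 2 • η ∈ TA) : An τ e η ≤ 1 :=
  (le_Nv e hτ (z' := 0) (by rwa [sub_zero])).trans_eq (Nv_zero e hτ)

include hP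

theorem rie_two (x y : VA) : ∃ η : VA, 2 • η ∈ TA ∧
    An τ e x ^ 2 * An τ e y ^ 2 ≤ An τ e (x + y + η) * An τ e (x - y + η) * An τ e η ^ 2 := by
  obtain ⟨η, h1, h2⟩ := rie_An e hτ (J := Fin 4) two_pos rfl ![y, -y, -x, -x]
  have h3 : ((2 : ℕ) : ℚ)⁻¹ • ∑ k, ![y, -y, -x, -x] k = -x := by
    simp only [Fin.sum_univ_four, Matrix.cons_val]
    module
  rw [norm_nat (N := 2) (not_dvd_two hP 1), one_pow, one_mul, h3] at h2
  simp only [Fin.prod_univ_four, Matrix.cons_val, An_neg, neg_add_cancel, zero_add, sub_neg_eq_add] at h2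
  refine ⟨η, h1, ?_⟩
  rw [add_comm x y, sub_eq_neg_add]
  linarith

theorem Nv_par (x y : VA) : Nv τ e x ^ 2 * Nv τ e y ^ 2 ≤ Nv τ e (x + y) * Nv τ e (x - y) := by
  obtain ⟨a, ha, h1⟩ := exists_Nv (τ := τ) e x
  obtain ⟨b, hb, h2⟩ := exists_Nv (τ := τ) e y
  obtain ⟨η, h3, h4⟩ := rie_two e hτ hP (x + a) (y + b)
  rw [h1, h2] at h4
  refine h4.trans (le_trans (mul_le_of_le_one_right
    (mul_nonneg (An_nonneg e hτ _) (An_nonneg e hτ _))
    (pow_le_one₀ (An_nonneg e hτ _) (An_half e hτ h3)))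
    (mul_le_mul (le_Nv e hτ ?_) (le_Nv e hτ ?_) (An_nonneg e hτ _) (Nv_pos e hτ _).le))
  · rw [show x + a + (y + b) + η - (x + y) = a + b + η by abel, nsmul_add, nsmul_add]
    exact TA.add_mem (TA.add_mem ha hb) h3
  · rw [show x + a - (y + b) + η - (x - y) = a - b + η by abel, nsmul_add, nsmul_sub]
    exact TA.add_mem (TA.sub_mem ha hb) h3

theorem Nv_le_one (x : VA) : Nv τ e x ≤ 1 := by
  by_contra hc
  replace hc := not_le.1 hc
  obtain ⟨M, hM, hx⟩ := exists_nsmul_mem_TA x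
  obtain ⟨δ, C, -, h⟩ := Nv_bound e hτ hM
  have h1 : ∀ k : ℕ, Nv τ e x ^ (k + 1) ≤ Nv τ e (2 ^ k • x) := fun k => by
    induction k with
    | zero => simp
    | succ k ih =>
      have h2 := Nv_par e hτ hP (2 ^ k • x) (2 ^ k • x)
      rw [sub_self, Nv_zero e hτ, mul_one, ← two_nsmul, smul_smul, ← pow_succ', ← pow_add] at h2
      refine le_trans ?_ ((pow_le_pow_left₀ (by positivity) ih _).trans h2)
      rw [← pow_mul]
      exact pow_le_pow_right₀ hc.le (by omega)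
  obtain ⟨k, hk⟩ := pow_unbounded_of_one_lt C hc
  exact hk.not_ge ((pow_le_pow_right₀ hc.le k.le_succ).trans ((h1 k).trans
    (h _ (by rw [smul_comm]; exact TA.nsmul_mem hx _)).2))

theorem An_le_one (x : VA) : An τ e x ≤ 1 :=
  (le_Nv e hτ (z' := x) (by simp)).trans (Nv_le_one e hτ hP x)

theorem Nv_add_le {s : VA} (hs : Nv τ e s = 1) (x : VA) : Nv τ e (x + s) ≤ Nv τ e x := by
  by_contra hc
  have h0 := Nv_pos e hτ x
  obtain ⟨r, hr⟩ : ∃ r, r = Nv τ e (x + s) / Nv τ e x := ⟨_, rfl⟩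
  have h1 : 1 < r := hr ▸ (one_lt_div h0).2 (not_le.1 hc)
  have h2 : ∀ k : ℕ, r * Nv τ e (x + k • s) ≤ Nv τ e (x + (k + 1) • s) := fun k => by
    induction k with
    | zero => simp [hr, h0.ne']
    | succ k ih =>
      have h3 := Nv_par e hτ hP (x + (k + 1) • s) s
      rw [hs, one_pow, mul_one, add_assoc, ← succ_nsmul,
        show x + (k + 1) • s - s = x + k • s by rw [succ_nsmul]; abel] at h3
      refine le_of_mul_le_mul_right (le_trans ?_ h3) (Nv_pos e hτ (x + k • s))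
      rw [mul_right_comm, sq]
      exact mul_le_mul_of_nonneg_right ih (Nv_pos e hτ _).le
  have h3 : ∀ k : ℕ, r ^ k * Nv τ e x ≤ Nv τ e (x + k • s) := fun k => by
    induction k with
    | zero => simp
    | succ k ih =>
      rw [pow_succ', mul_assoc]
      exact (mul_le_mul_of_nonneg_left ih (by linarith)).trans (h2 k)
  obtain ⟨k, hk⟩ := pow_unbounded_of_one_lt (1 / Nv τ e x) h1
  exact ((div_lt_iff₀ h0).1 hk).not_ge ((h3 k).trans (Nv_le_one e hτ hP _))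

theorem Nv_add {s : VA} (hs : Nv τ e s = 1) (x : VA) : Nv τ e (x + s) = Nv τ e x :=
  le_antisymm (Nv_add_le e hτ hP hs x) (by
    simpa using Nv_add_le e hτ hP ((Nv_neg e hτ s).trans hs) (x + s))

theorem Nv_nsmul {s : VA} (hs : Nv τ e s = 1) (n : ℕ) : Nv τ e (n • s) = 1 := by
  induction n with
  | zero => rw [zero_nsmul, Nv_zero e hτ]
  | succ n ih => rw [succ_nsmul, Nv_add e hτ hP hs, ih]

theorem Nv_div {N : ℕ} (hN : 0 < N) (x : VA) : ∃ w : VA, (2 * N) • w ∈ TA ∧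
    ‖(N : PadicAlgCl P)‖ ^ Fintype.card ι * Nv τ e (N • x) ≤ Nv τ e (x + w) ^ (2 * N - 1) := by
  obtain ⟨a, ha, h1⟩ := exists_Nv (τ := τ) e (N • x)
  obtain ⟨u, hu, h2⟩ := exists_Nv (τ := τ) e 0
  rw [zero_add, Nv_zero e hτ] at h2
  obtain ⟨η, h3, h4⟩ := rie_An e hτ (J := Fin (2 * N - 1 + 1)) hN (by simp; omega)
    (Fin.cons (N • x + a) fun _ => u)
  have h0 : (N : ℚ) ≠ 0 := Nat.cast_ne_zero.2 hN.ne'
  have h5 : ((2 * N - 1 : ℕ) : ℚ) = 2 * N - 1 := by
    rw [Nat.cast_sub (by omega)]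
    push_cast
    rfl
  refine ⟨(N : ℚ)⁻¹ • (a - u) + u - η, ?_, ?_⟩
  · rw [nsmul_sub, nsmul_add, mul_smul, ← Nat.cast_smul_eq_nsmul ℚ N, smul_inv_smul₀ h0, nsmul_sub,
      mul_smul 2 N η, mul_comm, mul_smul]
    exact TA.sub_mem (TA.add_mem (TA.sub_mem ha hu) (TA.nsmul_mem hu N)) (TA.nsmul_mem h3 2)
  · simp only [Fin.prod_univ_succ, Fin.sum_univ_succ, Fin.cons_zero, Fin.cons_succ, prod_const,
      sum_const, card_univ, Fintype.card_fin, h1, h2, one_pow, mul_one] at h4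
    refine h4.trans ((mul_le_of_le_one_left (pow_nonneg (An_nonneg e hτ _) _)
      (An_le_one e hτ hP _)).trans (pow_le_pow_left₀ (An_nonneg e hτ _) ?_ _))
    rw [← An_neg]
    refine le_Nv e hτ ((congrArg (fun z => 2 • z ∈ TA) ?_).mp (by simp : 2 • (0 : VA) ∈ TA))
    rw [← Nat.cast_smul_eq_nsmul ℚ N, ← Nat.cast_smul_eq_nsmul ℚ (2 * N - 1), h5]
    match_scalars <;> field_simp <;> ring

/-- Units among the theta constants. -/
theorem exists_unit {w : VA} (hw : Nv τ e w = 1) :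
    ∃ η : VA, 2 • η ∈ TA ∧ An τ e η = 1 ∧ An τ e (2 • w + η) = 1 := by
  obtain ⟨a, ha, h1⟩ := exists_Nv (τ := τ) e w
  obtain ⟨η, h2, h3⟩ := rie_two e hτ hP (w + a) (w + a)
  rw [h1, hw, sub_self, zero_add, An_congr e (z' := 2 • w + η) (by
    rwa [show w + a + (w + a) + η - (2 • w + η) = 2 • a by module])] at h3
  have a1 := An_le_one e hτ hP η
  have a2 := An_le_one e hτ hP (2 • w + η)
  have a3 := An_nonneg e hτ η
  have a4 := An_nonneg e hτ (2 • w + η)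
  have a5 : An τ e η * An τ e η ^ 2 ≤ 1 := mul_le_one₀ a1 (pow_nonneg a3 2) (pow_le_one₀ a3 a1)
  have a6 : An τ e (2 • w + η) * An τ e η ^ 2 ≤ 1 :=
    mul_le_one₀ a2 (pow_nonneg a3 2) (pow_le_one₀ a3 a1)
  rw [one_pow, one_mul] at h3
  exact ⟨η, h2, le_antisymm a1 (h3.trans
    ((mul_right_comm _ _ _).trans_le (mul_le_of_le_one_left a3 a6))), le_antisymm a2
      (h3.trans ((mul_assoc _ _ _).trans_le (mul_le_of_le_one_right a4 a5)))⟩

omit hτ hP [Dim] in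
theorem one_le_of_pow {b δ c : ℝ} (hb : 0 < b) (hδ : 0 < δ) (hc : 0 < c) {l : ℕ} (hl : 2 ≤ l)
    (h : ∀ k : ℕ, c ^ k * δ ≤ b ^ (2 * l ^ k - 1)) : 1 ≤ b := by
  by_contra hb1
  replace hb1 := not_le.1 hb1
  obtain ⟨m, hm⟩ := exists_pow_lt_of_lt_one (half_pos hc) hb1
  obtain ⟨n, hn⟩ := exists_pow_lt_of_lt_one hδ (by norm_num : (1 / 2 : ℝ) < 1)
  have h1 : ∀ k : ℕ, k * k ≤ 2 * l ^ k - 1 := fun k => by
    have h2 : k * k < 2 * 2 ^ k := by
      rcases Nat.lt_or_ge k 3 with h | h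
      · interval_cases k <;> norm_num
      · induction k, h using Nat.le_induction with
        | base => norm_num
        | succ k h ih => rw [pow_succ]; nlinarith
    have := Nat.pow_le_pow_left hl k
    omega
  have h2 := (h (m + n)).trans (pow_le_pow_of_le_one hb.le hb1.le
    ((Nat.mul_le_mul_right _ (Nat.le_add_right m n)).trans (h1 _)))
  rw [pow_mul] at h2
  have h3 := h2.trans (pow_le_pow_left₀ (by positivity) hm.le _)
  rw [div_eq_mul_one_div c, mul_pow] at h3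
  exact hn.not_ge ((le_of_mul_le_mul_left h3 (by positivity)).trans
    (pow_le_pow_of_le_one (by norm_num) (by norm_num) (Nat.le_add_left n m)))

end RG.B2.RT
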