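import Pool.Agent.Lib.MP_e97e2b_nt.RT.G.Ext3
import Pool.Agent.Lib.MP_e97e2b_nt.RT.G.Unr

/-!
Automorphisms that act on the sections, good places and inertia groups.
-/

set_option autoImplicit false

noncomputable section

namespace RG.B2.RT

open M4 M4.B2

variable [Dim]

/-- The automorphism `s` acts on the points through `R` and preserves the sections of level four. -/
def Fw (τ : Mat) (s : ℂ ≃+* ℂ) (R : ∀ l : Nat.Primes, GL ν ℤ_[l]) : Prop :=
  ∀ f ∈ GA τ 1, (fun x => s (f ((rho R).symm x))) ∈ GA τ 1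

/-- The laws of the normalised coordinates are integral at the place `e`. -/
def Good (τ : Mat) {P : Nat.Primes} (e : ℂ ≃+* PadicAlgCl P) : Prop :=
  ∃ D : TD0 Bits, D.Γ = GA τ ∧ D.X = XA τ D.i0 ∧ th2 τ D.i0 ≠ 0 ∧
    (∀ a b i j l m, ‖e (D.cl a b i j l m)‖ ≤ 1) ∧ ∀ a b, ‖e (D.cd a b)‖ ≤ 1

omit [Dim] in
/-- The inertia group. -/
def IG (p : ℕ) [Fact p.Prime] : Subgroup (PadicAlgCl p ≃ₐ[ℚ_[p]] PadicAlgCl p) where
  carrier := {t | Hb.Ine t}
  one_mem' := fun x _ => by simp
  mul_mem' := fun {s t} hs ht x hx => by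
    have h1 := hs (t x) ((norm_aut t x).trans_le hx)
    have h2 := IsUltrametricDist.norm_add_le_max (s (t x) - t x) (t x - x)
    rw [sub_add_sub_cancel] at h2
    exact h2.trans_lt (max_lt h1 (ht x hx))
  inv_mem' := fun {t} ht x hx => by
    rw [← norm_aut t, map_sub, ← AlgEquiv.mul_apply, mul_inv_cancel, AlgEquiv.one_apply,
      norm_sub_rev]
    exact ht x hx

end RG.B2.RT
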