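import Pool.Agent.Lib.MP_e97e2b_nt.RT.Loc.Nv
import Pool.Agent.Lib.MP_33b3f9_ag.Un.SAn

/-!
The action of an automorphism on the coordinates is monomial.
-/

set_option autoImplicit false
set_option linter.unusedSectionVars false

noncomputable section

namespace RG.B2.RT

open M4 M4.B2 Matrix Finset

variable [Dim] {τ : Mat}

theorem U_hf_zero (l : ν → ℤ) : U 4 (hf l) (XX τ 0) = chi l • XX τ 0 := by
  have h1 := Un.U_XX τ ((2 : ℤ) • l)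
  have h2 := M4.XX_add_two τ 0 l
  rw [zero_add, show hf (0 : ν → ℤ) = 0 by simp [hf, rz_zero]] at h2
  rw [h2, rz_smul, smul_smul, show (4 : ℝ)⁻¹ * ((2 : ℤ) : ℝ) = 1 / 2 by norm_num] at h1
  simpa [hf] using h1

theorem U_hf (k l : ν → ℤ) : U 4 (hf l) (XX τ k) =
    (ee ((4 : ℝ) * E ((4 : ℝ)⁻¹ • rz k) (hf l)) * chi l) • XX τ k := by
  rw [← Un.U_XX τ k, U_comm, U_hf_zero, U_smul, smul_smul]

theorem eig (hτ : InH τ) {f : (ν → ℝ) → ℂ} (hf0 : f ∈ Gam τ 4 0)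
    (h : ∀ l, ∃ c : ℂ, U 4 (hf l) f = c • f) : ∃ (j : Bits) (a : ℂ), f = a • XX τ (bz j) := by
  have h1 := hf0
  rw [← span_XX hτ, Submodule.mem_span_range_iff_exists_fun] at h1
  obtain ⟨a, ha⟩ := h1
  by_cases h2 : ∀ j, a j = 0
  · exact ⟨0, 0, by simp [← ha, h2]⟩
  obtain ⟨j, hj⟩ := not_forall.1 h2
  obtain ⟨b, hb⟩ := Un.eq_XX hτ (g := U 4 (-((4 : ℝ)⁻¹ • rz (bz j))) f)
    (Hol.U hτ.1 (by simpa using hf0.1) _) fun l => by
      obtain ⟨c, hc⟩ := h l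
      have h3 := hc
      rw [← ha, U_sum, smul_sum, ← sub_eq_zero, ← sum_sub_distrib] at h3
      simp only [U_smul, U_hf, smul_smul, ← sub_smul] at h3
      have h4 := Fintype.linearIndependent_iff.1 (linearIndependent_XX hτ) _ h3 j
      rw [mul_comm c, ← mul_sub, mul_eq_zero, sub_eq_zero] at h4
      rw [U_comm, hc, U_smul, smul_smul, ← h4.resolve_left hj, ← mul_assoc, ← ee_add, E_neg_left]
      simp
  have h5 := congrArg (U 4 ((4 : ℝ)⁻¹ • rz (bz j))) hb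
  have h6 := U_neg_U 4 (-((4 : ℝ)⁻¹ • rz (bz j))) f
  rw [neg_neg] at h6
  rw [h6, U_smul, Un.U_XX] at h5
  exact ⟨j, b, h5⟩

theorem GA_per {n : ℕ} {f : VA → ℂ} (hf : f ∈ GA τ n) {l : VA} (hl : l ∈ TA) : UA n l f = f := by
  obtain ⟨g, hg, rfl⟩ := hf
  exact UA_ext_TA (Per.of_mem hg) hl

theorem GA_add {f : VA → ℂ} (hf : f ∈ GA τ 1) {l : VA} (hl : l ∈ TA) (x : VA) :
    f (x + l) = psi (-(2 * EB l x)) * f x := by
  have h := apply_add_of_UA (c := 1) ((GA_per hf hl).trans (one_smul _ _).symm) x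
  rwa [one_mul, mul_one, Nat.cast_ofNat] at h

theorem XA_mem (hτ : InH τ) (i0 i : Bits) : XA τ i0 i ∈ GA τ 1 := ext_mem (YY_mem hτ i0 _)

theorem XA_bpf (hτ : InH τ) {i0 : Bits} (h0 : th2 τ i0 ≠ 0) (z : VA) : ∃ i, XA τ i0 i z ≠ 0 := by
  obtain ⟨q, t, ht, rfl⟩ := exists_split z
  obtain ⟨i, hi⟩ := XX_bpf hτ (rQ q)
  refine ⟨i, ?_⟩
  rw [XA_eq hτ i0 i q ht]
  exact mul_ne_zero (psi_ne _) (mul_ne_zero (inv_ne_zero h0) hi)

theorem XA_zero (hτ : InH τ) {i0 : Bits} (h0 : th2 τ i0 ≠ 0) : XA τ i0 i0 0 = 1 := by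
  have h := XA_eq hτ i0 i0 0 TA.zero_mem
  simp only [qV_zero, add_zero, EB_self, mul_zero, neg_zero, psi_zero, one_mul, rQ_zero] at h
  rw [h, YY, Pi.smul_apply, XX_zero, smul_eq_mul]
  exact inv_mul_cancel₀ h0

theorem q_mem {N M : ℕ} (c : ℚ) (h : N * c = M) (k : ν → ℤ) : N • qV (c • zQ k) ∈ TA := by
  rw [← Nat.cast_smul_eq_nsmul ℚ, qV_smul, smul_smul, h, Nat.cast_smul_eq_nsmul]
  exact TA.nsmul_mem (qV_zQ_mem k) M

theorem UA_half {f : (ν → ℝ) → ℂ} (hf0 : f ∈ Gam τ (4 * 1) 0) (l : ν → ℤ) :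
    UA 1 (qV ((1 / 2 : ℚ) • zQ l)) (ext 1 f) = ext 1 (U 4 (hf l) f) := by
  rw [UA_ext_qV (Per.of_mem hf0) (q_mem (M := 2) _ (by norm_num) l), rQ_half]
  norm_num

theorem half_eig (hτ : InH τ) {f : (ν → ℝ) → ℂ} (hf0 : f ∈ Gam τ (4 * 1) 0) {l : ν → ℤ} {c : ℂ}
    (h : UA 1 (qV ((1 / 2 : ℚ) • zQ l)) (ext 1 f) = c • ext 1 f) : U 4 (hf l) f = c • f := by
  rw [UA_half hf0, ← ext_smul] at h
  have h1 := (Per.of_mem hf0).U (q_mem (M := 2) (1 / 2) (by norm_num) l)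
  have h2 := Hol.U hτ.1 hf0.1 (hf l)
  have h3 := (Gam τ (4 * 1) 0).smul_mem c hf0
  rw [rQ_half] at h1
  norm_num at h1 h2
  exact eq_of_ext (Hol.continuous h2) (Hol.continuous h3.1) h1 (Per.of_mem h3) h

theorem UA_quarter (hτ : InH τ) (i0 i : Bits) :
    UA 1 (qV ((1 / 4 : ℚ) • zQ (bz i))) (XA τ i0 0) = XA τ i0 i := by
  rw [XA, UA_ext_qV (Per.of_mem (YY_mem hτ i0 _)) (q_mem (M := 1) _ (by norm_num) _), YY, U_smul,
    rQ_smul, rQ_zQ, XA, YY, ← Un.U_XX τ (bz i), show bz (0 : Bits) = 0 from rfl]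
  norm_num

theorem UA_two (hτ : InH τ) (i0 i : Bits) {y : VA} (hy : 2 • y ∈ TA) :
    ∃ c : ℂ, UA 1 y (XA τ i0 i) = c • XA τ i0 i := by
  obtain ⟨j, hj⟩ := exists_qM two_pos hy
  have h := UA_UA 1 (y - qM j) (qM j) (XA τ i0 i)
  rw [sub_add_cancel, qM_eq, XA, UA_half (YY_mem hτ i0 _), YY, U_smul, U_hf, smul_comm, ext_smul,
    UA_smul, ← YY, ← XA, ← qM_eq, GA_per (XA_mem hτ i0 i) hj] at h
  exact ⟨_, by rw [← inv_smul_eq_iff₀ (psi_ne _), smul_smul] at h; exact h.symm⟩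

theorem XA_inj (hτ : InH τ) {i0 : Bits} (h0 : th2 τ i0 ≠ 0) {i j : Bits} {c : ℂ}
    (h : XA τ i0 i = c • XA τ i0 j) : i = j := by
  rw [XA, XA, ← ext_smul] at h
  have h1 := YY_mem hτ i0 (bz i)
  have h2 := (Gam τ (4 * 1) 0).smul_mem c (YY_mem hτ i0 (bz j))
  have h3 := eq_of_ext (Hol.continuous h1.1) (Hol.continuous h2.1) (Per.of_mem h1) (Per.of_mem h2) h
  rw [YY, YY, smul_comm, (smul_right_injective _ (inv_ne_zero h0)).eq_iff] at h3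
  exact (linearIndependent_XX hτ).eq_of_smul_apply_eq_smul_apply 1 c i j one_ne_zero
    (by rwa [one_smul])

variable {s : ℂ ≃+* ℂ} {R : ∀ l : Nat.Primes, GL ν ℤ_[l]}

theorem rho_qsmul (c : ℚ) (x : VA) : rho R (c • x) = c • rho R x := by
  rw [qsmul_VA, qsmul_VA, map_smul]

theorem Fw.psi (hτ : InH τ) (h : Fw τ s R) (x y : VA) :
    s (psi (EB x y)) = psi (EB (rho R x) (rho R y)) := by
  obtain ⟨N, hN, hx⟩ := exists_nsmul_mem_TA x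
  obtain ⟨i0, h0⟩ := XX_bpf hτ 0
  rw [XX_zero] at h0
  have h1 : (N : ℚ) ≠ 0 := Nat.cast_ne_zero.2 hN.ne'
  have e0 : (2 : Af) * qA N * qA (-(2 * N : ℚ)⁻¹) = -1 := by
    rw [qA, qA, ← map_ofNat (algebraMap ℚ Af) 2, ← map_mul, ← map_mul,
      show 2 * N * -(2 * N : ℚ)⁻¹ = -1 by field_simp, map_neg, map_one]
  have e : ∀ a b : VA, -(2 * EB (N • a) ((-(2 * N : ℚ)⁻¹) • b)) = EB a b := fun a b => by
    rw [← Nat.cast_smul_eq_nsmul ℚ, qsmul_VA, qsmul_VA, EB_smul_left, EB_smul_right]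
    linear_combination (-EB a b) * e0
  obtain ⟨i, hi⟩ := XA_bpf hτ h0 ((-(2 * N : ℚ)⁻¹) • y)
  have h2 := GA_add (h _ (XA_mem hτ i0 i)) ((rho_mem_TA R).2 hx) (rho R ((-(2 * N : ℚ)⁻¹) • y))
  rw [← map_add, LinearEquiv.symm_apply_apply, LinearEquiv.symm_apply_apply,
    GA_add (XA_mem hτ i0 i) hx, map_mul, e, map_nsmul, rho_qsmul, e] at h2
  exact mul_right_cancel₀ ((_root_.map_ne_zero s).2 hi) h2

variable (s R) in
/-- The conjugate function. -/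
def Tw (f : VA → ℂ) : VA → ℂ := fun x => s (f ((rho R).symm x))

theorem Tw_rho (f : VA → ℂ) (x : VA) : Tw s R f (rho R x) = s (f x) := by
  rw [Tw, LinearEquiv.symm_apply_apply]

theorem Tw_smul (c : ℂ) (f : VA → ℂ) : Tw s R (c • f) = s c • Tw s R f :=
  funext fun _ => map_mul s _ _

theorem Tw_UA (hτ : InH τ) (h : Fw τ s R) (y : VA) (f : VA → ℂ) :
    Tw s R (UA 1 y f) = UA 1 (rho R y) (Tw s R f) := by
  funext x
  obtain ⟨x, rfl⟩ := (rho R).surjective x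
  rw [Tw_rho, UA_apply, UA_apply, ← map_add, Tw_rho, map_mul, psi_nsmul, psi_nsmul, map_pow,
    h.psi hτ]

theorem Fw.mono (hτ : InH τ) {i0 : Bits} (h0 : th2 τ i0 ≠ 0) (h : Fw τ s R) :
    ∃ (c : ℂ) (π : Equiv.Perm Bits) (ζ : Bits → ℂ), c ≠ 0 ∧ (∀ i, ζ i ^ 8 = 1) ∧
      ∀ i x, s (XA τ i0 i x) = c * ζ i * XA τ i0 (π i) (rho R x) := by
  obtain ⟨f, hf0, h1⟩ := mem_GA.1 (h _ (XA_mem hτ i0 0))
  replace h1 : ext 1 f = Tw s R (XA τ i0 0) := h1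
  obtain ⟨j, a, ha⟩ := eig hτ hf0 fun l => by
    obtain ⟨y, hy⟩ := (rho R).surjective (qV ((1 / 2 : ℚ) • zQ l))
    obtain ⟨c, hc⟩ := UA_two hτ i0 0 (y := y) ((rho_mem_TA R).1 (by
      rw [map_nsmul, hy]
      exact q_mem (M := 1) _ (by norm_num) l))
    exact ⟨s c, half_eig hτ hf0 (by rw [h1, ← hy, ← Tw_UA hτ h, hc, Tw_smul])⟩
  have h2 : Tw s R (XA τ i0 0) = (a * th2 τ i0) • XA τ i0 j := by
    rw [← h1, ha, XA, YY, ← ext_smul, smul_smul, mul_inv_cancel_right₀ h0]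
  choose π ζ h3 h4 using fun i : Bits => XA_heis hτ i0 (rho R (qV ((1 / 4 : ℚ) • zQ (bz i)))) (by
    rw [← map_nsmul, rho_mem_TA]
    exact q_mem (M := 1) _ (by norm_num) _) j
  have h5 : ∀ i x, s (XA τ i0 i x) = a * th2 τ i0 * ζ i * XA τ i0 (π i) (rho R x) := fun i x => by
    rw [← Tw_rho (R := R), ← UA_quarter hτ i0 i, Tw_UA hτ h, h2, UA_smul, h4, smul_smul]
    rfl
  have h6 : a * th2 τ i0 ≠ 0 := fun h7 => by
    have h8 := h5 i0 0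
    rw [h7, XA_zero hτ h0, map_one, zero_mul, zero_mul] at h8
    exact one_ne_zero h8
  have h7 : Function.Injective π := fun i k hik =>
    XA_inj hτ h0 (c := s.symm (ζ i / ζ k)) (funext fun x => s.injective (by
      have h8 : ζ k ≠ 0 := fun h9 => by simpa [h9] using h3 k
      rw [Pi.smul_apply, smul_eq_mul, map_mul, s.apply_symm_apply, h5, h5, hik]
      field_simp))
  exact ⟨_, Equiv.ofBijective π (Finite.injective_iff_bijective.1 h7), ζ, h6, h3, h5⟩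

theorem rho_sub {N : ℕ} (h : ∀ (l : Nat.Primes) i j, (N : ℤ_[l]) ∣ ((R l).1 - 1) i j) {x : VA}
    (hx : x ∈ TA) : ∃ u ∈ TA, rho R x - x = N • u := by
  choose M hM using h
  refine ⟨toA (fun l => of (M l)) *ᵥ x, mem_TA_iff.2 fun l i => ?_, VA_ext fun l => ?_⟩
  · rw [cV_toA_mulVec]
    exact mQ_mulVec_le _ (mem_TA_iff.1 hx l) i
  · have h1 : mQ (R l).1 = 1 + (N : ℚ_[l]) • mQ (of (M l)) := by
      ext i j
      have h2 := congrArg (fun z : ℤ_[l] => (z : ℚ_[l])) (hM l i j)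
      rw [← mQ_one (l := l)]
      simpa [mQ, sub_eq_iff_eq_add', -Matrix.map_one] using h2
    rw [cV_sub, cV_rho, cV_nsmul, cV_toA_mulVec, h1, add_mulVec, one_mulVec, add_sub_cancel_left,
      smul_mulVec]

omit [Dim] in
theorem unit_dvd {l : Nat.Primes} {N : ℕ} (h : ¬ l.1 ∣ N) (x : ℤ_[l]) : (N : ℤ_[l]) ∣ x :=
  IsUnit.dvd (PadicInt.isUnit_iff.2 (PadicInt.norm_natCast_eq_one_iff.2
    ((Nat.Prime.coprime_iff_not_dvd l.2).2 h)))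

theorem two_dvd {k : ℕ}
    (h : ∀ l : Nat.Primes, l.1 = 2 → ∀ i j, ((2 ^ k : ℕ) : ℤ_[l]) ∣ ((R l).1 - 1) i j)
    (l : Nat.Primes) (i j : ν) : ((2 ^ k : ℕ) : ℤ_[l]) ∣ ((R l).1 - 1) i j := by
  by_cases hl : l.1 = 2
  · exact h l hl i j
  · exact unit_dvd (fun h1 => hl ((Nat.prime_dvd_prime_iff_eq l.2 Nat.prime_two).1
      (l.2.dvd_of_dvd_pow h1))) _

theorem rho_div {N M : ℕ} (hM : 0 < M)
    (h : ∀ (l : Nat.Primes) i j, ((M * N : ℕ) : ℤ_[l]) ∣ ((R l).1 - 1) i j) {x : VA}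
    (hx : M • x ∈ TA) : ∃ u ∈ TA, rho R x = x + N • u := by
  obtain ⟨u, hu, h1⟩ := rho_sub h hx
  rw [map_nsmul, ← nsmul_sub, mul_smul, ← Nat.cast_smul_eq_nsmul ℚ,
    ← Nat.cast_smul_eq_nsmul ℚ M] at h1
  exact ⟨u, hu, sub_eq_iff_eq_add'.1 (smul_right_injective VA (Nat.cast_ne_zero.2 hM.ne') h1)⟩

theorem Fw.eight (hτ : InH τ) {i0 : Bits} (h0 : th2 τ i0 ≠ 0) (h : Fw τ s R)
    (h8 : ∀ l : Nat.Primes, l.1 = 2 → ∀ i j, (8 : ℤ_[l]) ∣ ((R l).1 - 1) i j) (i : Bits) (x : VA) :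
    s (XA τ i0 i x) = XA τ i0 i (rho R x) := by
  have h9 := two_dvd (R := R) (k := 3) (by simpa using h8)
  obtain ⟨f, hf0, h1⟩ := mem_GA.1 (h _ (XA_mem hτ i0 0))
  replace h1 : ext 1 f = Tw s R (XA τ i0 0) := h1
  have h2 : ∀ y : VA, 4 • y ∈ TA → Tw s R (UA 1 y (XA τ i0 0)) = UA 1 y (ext 1 f) := fun y hy => by
    obtain ⟨u, hu, h3⟩ := rho_div (N := 2) four_pos h9 hy
    have h4 := UA_UA 1 y (2 • u) (ext 1 f)
    rw [GA_per (ext_mem hf0) (TA.nsmul_mem hu 2), ← h3, psi_eq_one.2, one_smul] at h4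
    · rw [Tw_UA hτ h, ← h1, h4]
    · refine (congrArg (· ∈ Zh) ?_).mp (EB_mem hu hy)
      rw [nsmul_VA, nsmul_VA, EB_smul_left, EB_smul_right]
      push_cast
      ring
  obtain ⟨a, ha⟩ := Un.eq_XX hτ (g := f) (by simpa using hf0.1) fun l => half_eig hτ hf0 (by
    rw [← h2 _ (q_mem (M := 2) _ (by norm_num) l), XA, UA_half (YY_mem hτ i0 _), YY, U_smul,
      show bz (0 : Bits) = 0 from rfl, U_hf_zero, smul_comm, ext_smul, Tw_smul, h1,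
      show s (chi l) = chi l by simp [chi]]
    rfl)
  have h3 : ext 1 f = (a * th2 τ i0) • XA τ i0 0 := by
    rw [ha, XA, YY, ← ext_smul, smul_smul, mul_inv_cancel_right₀ h0]
    rfl
  have h5 : ∀ i x, s (XA τ i0 i x) = a * th2 τ i0 * XA τ i0 i (rho R x) := fun i x => by
    rw [← Tw_rho (R := R), ← UA_quarter hτ i0 i, h2 _ (q_mem (M := 1) _ (by norm_num) _), h3,
      UA_smul]
    rfl
  have h6 := h5 i0 0
  rw [map_zero, XA_zero hτ h0, map_one, mul_one] at h6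
  rw [h5, ← h6, one_mul]

end RG.B2.RT
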