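import Pool.Agent.Lib.MP_e97e2b_nt.RT.Loc.Cal
import Pool.Agent.Lib.MP_e97e2b_nt.RT.Loc.Mono

/-!
Integral laws from units among the theta constants.
-/

set_option autoImplicit false
set_option linter.unusedSectionVars false

noncomputable section

namespace RG.B2.RT

open M4 M4.B2 Matrix Finset

variable [Dim] {τ : Mat} {P : Nat.Primes} (e : ℂ ≃+* PadicAlgCl P)

theorem norm_R8 {c : ℂ} (hc : R8 c) : ‖e c‖ = 1 :=
  norm_root (n := 8) (by norm_num) (by rw [← map_pow, hc.pow, map_one])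

omit [Dim] in
theorem norm_ite {α β : Type} [Fintype α] [DecidableEq β] (π : α → β) {c : α → ℂ}
    (hc : ∀ a, ‖e (c a)‖ ≤ 1) (b : β) : ‖e (∑ a, if π a = b then c a else 0)‖ ≤ 1 := by
  rw [map_sum]
  refine IsUltrametricDist.norm_sum_le_of_forall_le_of_nonneg zero_le_one fun a _ => ?_
  split_ifs
  · exact hc a
  · simp

omit [Dim] in
theorem norm_two (hP : P.1 ≠ 2) (k : ℕ) : ‖e (2 ^ k)‖ = 1 := by
  rw [map_pow, map_ofNat]
  exact_mod_cast norm_nat (not_dvd_two hP k)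

theorem exists_i0 (hτ : InH τ) : ∃ i0 : Bits, th2 τ i0 ≠ 0 ∧ A0 τ e (qM i0) = Mx τ e 0 := by
  obtain ⟨i0, h⟩ := exists_Mx (τ := τ) e 0
  rw [zero_add] at h
  refine ⟨i0, fun h0 => (Mx_pos e hτ 0).ne' ?_, h.symm⟩
  rw [h, qM_eq, A0_hf]
  exact (congrArg (fun z => ‖e z‖) h0).trans (by simp)

theorem norm_YY {i0 : Bits} (h0 : A0 τ e (qM i0) = Mx τ e 0) (k : ν → ℤ) :
    ‖e (YY τ i0 k 0)‖ = An τ e (qV ((1 / 2 : ℚ) • zQ k)) := by
  rw [An, ← h0, qM_eq, A0_hf, A0_hf, YY, Pi.smul_apply, XX_zero, smul_eq_mul, map_mul, norm_mul,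
    map_inv₀, norm_inv, div_eq_inv_mul]
  rfl

variable (hτ : InH τ) (hP : P.1 ≠ 2) {i0 : Bits} (h0 : th2 τ i0 ≠ 0)
  (h1 : A0 τ e (qM i0) = Mx τ e 0)
include hτ hP h0 h1

theorem law_N (hQ : ∀ w : VA, 4 • w ∈ TA → Nv τ e w = 1) (a b : Bits) :
    ∃ c : Bits → Bits → Bits → Bits → ℂ, (∀ i j l m, ‖e (c i j l m)‖ ≤ 1) ∧ ∀ x y,
      YY τ i0 (bz a) (x + y) * YY τ i0 (bz b) (x - y) = ∑ i, ∑ j, ∑ l, ∑ m,
        c i j l m * (YY τ i0 (bz i) x * YY τ i0 (bz j) x) *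
          (YY τ i0 (bz l) y * YY τ i0 (bz m) y) := by
  obtain ⟨k, l, s, hs, hk, hl⟩ : ∃ k l s : ν → ℤ, bz a + bz b + k + l = (2 : ℤ) • s ∧
      ‖e (YY τ i0 k 0)‖ = 1 ∧ ‖e (YY τ i0 l 0)‖ = 1 := by
    obtain ⟨η, h2, h3, h4⟩ := exists_unit e hτ hP
      (hQ _ (q_mem (M := 1) (1 / 4) (by norm_num) (bz a + bz b)))
    obtain ⟨ε, h5⟩ := exists_qM two_pos h2
    refine ⟨bz ε, bz a + bz b + bz ε, _, (two_smul _ _).symm, ?_, ?_⟩
    · rw [norm_YY e h1, ← qM_eq, ← An_congr e h5, h3]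
    · rw [norm_YY e h1, ← h4, eq_comm]
      refine An_congr e ((congrArg (· ∈ TA) ?_).mp h5)
      simp only [qM_eq, qV_smul, qV_add, show ∀ u v : ν → ℤ, zQ (u + v) = zQ u + zQ v from
        fun u v => funext fun i => Int.cast_add _ _]
      module
  choose rd ζ hζ hY using YY_red τ i0
  have hk' : YY τ i0 k 0 ≠ 0 := fun h => by simp [h] at hk
  have hl' : YY τ i0 l 0 ≠ 0 := fun h => by simp [h] at hl
  let π : Bits → Bits × Bits × Bits × Bits := fun e =>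
    (rd (s + bz e), rd (s - k - l + bz e), rd (s - bz b - l + bz e), rd (s - bz b - k + bz e))
  let c : Bits → ℂ := fun e => chi (bz e) * ee (E (hf (bz e)) (hf (bz a))) *
    (ζ (s + bz e) * ζ (s - k - l + bz e) * ζ (s - bz b - l + bz e) * ζ (s - bz b - k + bz e)) /
      (2 ^ Fintype.card ι * YY τ i0 k 0 * YY τ i0 l 0)
  have hc : ∀ u, ‖e (c u)‖ ≤ 1 := fun u => by
    have h1 := R8_E (bz u) (bz a) 2
    rw [show ((2 : ℤ) : ℂ) * (E (hf (bz u)) (hf (bz a)) : ℂ) / 2 = E (hf (bz u)) (hf (bz a)) by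
      push_cast; ring] at h1
    rw [map_div₀, norm_div, norm_R8 e (((R8_chi _).mul h1).mul
      ((((hζ _).mul (hζ _)).mul (hζ _)).mul (hζ _))), map_mul, map_mul, norm_mul, norm_mul, hk, hl,
      norm_two e hP]
    norm_num
  refine ⟨fun i j l m => ∑ e, if π e = (i, j, l, m) then c e else 0,
    fun i j l m => norm_ite e π hc _, fun x y => ?_⟩
  have h1 := sum_fiber π c fun p => (YY τ i0 (bz p.1) x * YY τ i0 (bz p.2.1) x) *
    (YY τ i0 (bz p.2.2.1) y * YY τ i0 (bz p.2.2.2) y)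
  simp only [Fintype.sum_prod_type] at h1
  simp only [mul_assoc _ (YY τ i0 (bz _) x * YY τ i0 (bz _) x)]
  rw [← h1]
  have h2 := XX_law hτ hs x y
  rw [← XX_zero, ← XX_zero] at h2
  have h3 : ∀ k z, XX τ k z = th2 τ i0 * YY τ i0 k z := fun k z => by
    rw [YY, Pi.smul_apply, smul_eq_mul, mul_inv_cancel_left₀ h0]
  simp only [h3] at h2
  have h4 : th2 τ i0 ^ 4 * (2 ^ Fintype.card ι * YY τ i0 k 0 * YY τ i0 l 0) ≠ 0 :=
    mul_ne_zero (pow_ne_zero _ h0) (mul_ne_zero (mul_ne_zero (pow_ne_zero _ two_ne_zero) hk') hl')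
  refine mul_left_cancel₀ h4 ?_
  rw [Finset.mul_sum]
  refine (Eq.trans (by ring) h2).trans (Finset.sum_congr rfl fun e _ => ?_)
  rw [hY (s + bz e), hY (s - k - l + bz e), hY (s - bz b - l + bz e), hY (s - bz b - k + bz e)]
  simp only [Pi.smul_apply, smul_eq_mul, c, π]
  field_simp

theorem dup_N (a : Bits) : ∃ c : Bits → ℂ, (∀ b, ‖e (c b)‖ ≤ 1) ∧ ∀ x,
      YY τ i0 (bz a) x ^ 4 = ∑ b, c b * YY τ i0 (bz b) (x + x) := by
  choose rd ζ hζ hY using YY_red τ i0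
  have hs : bz a + bz a + bz a + bz a = (2 : ℤ) • (bz a + bz a) := by rw [two_smul]; abel
  let π : Bits → Bits := fun e => rd (bz a + bz a + bz e)
  let c : Bits → ℂ := fun e => chi (bz e) * ee (E (hf (bz e)) (hf (bz a))) *
    ζ (bz a + bz a + bz e) * YY τ i0 (bz e) 0 ^ 3 / 2 ^ Fintype.card ι
  have hc : ∀ u, ‖e (c u)‖ ≤ 1 := fun u => by
    have h2 := R8_E (bz u) (bz a) 2
    rw [show ((2 : ℤ) : ℂ) * (E (hf (bz u)) (hf (bz a)) : ℂ) / 2 = E (hf (bz u)) (hf (bz a)) by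
      push_cast; ring] at h2
    rw [map_div₀, norm_div, map_mul, norm_mul, norm_R8 e (((R8_chi _).mul h2).mul (hζ _)),
      norm_two e hP, one_mul, div_one, map_pow, norm_pow, norm_YY e h1]
    exact pow_le_one₀ (An_nonneg e hτ _) (An_le_one e hτ hP _)
  refine ⟨fun b => ∑ e, if π e = b then c e else 0, fun b => norm_ite e π hc _, fun x => ?_⟩
  rw [← sum_fiber π c fun p => YY τ i0 (bz p) (x + x)]
  have h2 := XX_dup hτ hs x
  simp only [← XX_zero, add_sub_cancel_right, sub_self, zero_add,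
    two_smul] at h2
  have h3 : ∀ k z, XX τ k z = th2 τ i0 * YY τ i0 k z := fun k z => by
    rw [YY, Pi.smul_apply, smul_eq_mul, mul_inv_cancel_left₀ h0]
  simp only [h3] at h2
  have h4 : th2 τ i0 ^ 4 * 2 ^ Fintype.card ι ≠ 0 := mul_ne_zero (pow_ne_zero _ h0)
    (pow_ne_zero _ two_ne_zero)
  refine mul_left_cancel₀ h4 ?_
  rw [Finset.mul_sum]
  refine (Eq.trans (by ring) h2).trans (Finset.sum_congr rfl fun e _ => ?_)
  rw [hY (bz a + bz a + bz e)]
  simp only [Pi.smul_apply, smul_eq_mul, c, π]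
  field_simp

omit h0 h1 in
theorem good_of (hQ : ∀ w : VA, 4 • w ∈ TA → Nv τ e w = 1) : Good τ e := by
  obtain ⟨i0, h0, h1⟩ := exists_i0 e hτ
  obtain ⟨D, -, hD, -⟩ := exists_TD0 hτ (K := ⊤) ⟨trivial, fun _ _ => trivial⟩
  choose cl hcl hlaw using law_N e hτ hP h0 h1 hQ
  choose cd hcd hdup using dup_N e hτ hP h0 h1
  refine ⟨{ D with
    X := XA τ i0
    i0 := i0
    cl := cl
    cd := cd
    X_zero := XA_zero hτ h0
    X_mem := fun i => hD ▸ XA_mem hτ i0 i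
    heis := XA_heis hτ i0
    bpf := XA_bpf hτ h0
    law := fun a b z z' => ?_
    dup := fun a z => ?_ }, hD, rfl, h0, hcl, hcd⟩
  · obtain ⟨q, t, ht, rfl⟩ := exists_split z
    obtain ⟨q', t', ht', rfl⟩ := exists_split z'
    have e1 : qV q + t + (qV q' + t') = qV (q + q') + (t + t') := by rw [qV_add]; abel
    have e2 : qV q + t - (qV q' + t') = qV (q - q') + (t - t') := by rw [qV_sub]; abel
    have e3 : psi (-(2 * EB (t + t') (qV (q + q')))) * psi (-(2 * EB (t - t') (qV (q - q')))) =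
        psi (-(2 * EB t (qV q))) ^ 2 * psi (-(2 * EB t' (qV q'))) ^ 2 := by
      rw [← psi_nsmul, ← psi_nsmul, ← psi_add, ← psi_add, qV_add, qV_sub]
      simp only [EB_add_left, EB_add_right, EB_sub_left, EB_sub_right]
      congr 1
      push_cast
      ring
    rw [e1, e2, XA_eq hτ i0 a _ (TA.add_mem ht ht'), XA_eq hτ i0 b _ (TA.sub_mem ht ht'),
      mul_mul_mul_comm, e3, rQ_add, rQ_sub, hlaw]
    simp only [XA_eq hτ i0 _ _ ht, XA_eq hτ i0 _ _ ht', Finset.mul_sum]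
    refine Finset.sum_congr rfl fun i _ => Finset.sum_congr rfl fun j _ =>
      Finset.sum_congr rfl fun l _ => Finset.sum_congr rfl fun m _ => by ring
  · obtain ⟨q, t, ht, rfl⟩ := exists_split z
    have e1 : qV q + t + (qV q + t) = qV (q + q) + (t + t) := by rw [qV_add]; abel
    have e3 : psi (-(2 * EB t (qV q))) ^ 4 = psi (-(2 * EB (t + t) (qV (q + q)))) := by
      rw [← psi_nsmul, qV_add]
      simp only [EB_add_left, EB_add_right]
      congr 1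
      push_cast
      ring
    rw [e1, XA_eq hτ i0 a _ ht, mul_pow, e3, hdup]
    simp only [XA_eq hτ i0 _ _ (TA.add_mem ht ht), Finset.mul_sum, rQ_add]
    exact Finset.sum_congr rfl fun i _ => by ring

end RG.B2.RT
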