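import Pool.Agent.Lib.MP_33b3f9_ag.M4.ThExt
import Pool.Agent.Lib.MP_33b3f9_ag.M4.ThBasis

/-!
A theta relation in `2 N` variables.
-/

set_option autoImplicit false
set_option linter.unusedSectionVars false

noncomputable section

namespace RG.B2.RT

open M4 Matrix Finset Function

variable {ι : Type} [Fintype ι] [DecidableEq ι] {τ : Matrix ι ι ℂ} {J : Type} [Fintype J]
  [DecidableEq J] {N : ℕ}

theorem slot (hτ : InH τ) (H : (J → ι ⊕ ι → ℝ) → ℂ)
    (h : ∀ x j, (fun z => H (update x j z)) ∈ Gam τ 1 0) :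
    ∃ c, ∀ x, H x = c * ∏ j, Th τ (x j) := by
  obtain ⟨u, hu⟩ : ∃ u, Th τ u ≠ 0 := (exists_null_ne_zero hτ).elim fun _ h => ⟨_, h⟩
  have key : ∀ (s : Finset J) x, H x * Th τ u ^ s.card =
      (∏ j ∈ s, Th τ (x j)) * H (s.piecewise (fun _ => u) x) := fun s x => by
    induction s using Finset.induction_on with
    | empty => simp
    | insert j s hj ih =>
      obtain ⟨a, ha⟩ := Gam_one hτ (h (s.piecewise (fun _ => u) x) j)
      have h1 := congrFun ha u
      have h2 := congrFun ha (s.piecewise (fun _ => u) x j)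
      rw [update_eq_self, piecewise_eq_of_notMem _ _ _ hj] at h2
      simp only [U_zero, Pi.smul_apply, smul_eq_mul] at h1 h2
      rw [card_insert_of_notMem hj, pow_succ, ← mul_assoc, ih, prod_insert hj, piecewise_insert,
        h1, h2]
      ring
  refine ⟨H (fun _ => u) / Th τ u ^ Fintype.card J, fun x => ?_⟩
  have := key univ x
  rw [piecewise_univ, card_univ] at this
  rw [div_mul_eq_mul_div, eq_div_iff (pow_ne_zero _ hu), this, mul_comm]

theorem hol_prod {m : J → ℝ} {f : J → (ι ⊕ ι → ℝ) → ℂ} (h : ∀ j, f j ∈ Hol τ (m j))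
    (s : Finset J) : ∏ j ∈ s, f j ∈ Hol τ (∑ j ∈ s, m j) := by
  induction s using Finset.induction_on with
  | empty => simpa using Hol.one
  | insert j s hj ih =>
    rw [prod_insert hj, sum_insert hj]
    exact Hol.mul (h j) ih

theorem E_sum (y : ι ⊕ ι → ℝ) (x : J → ι ⊕ ι → ℝ) : E y (∑ j, x j) = ∑ j, E y (x j) := by
  simp only [E, Finset.sum_apply, mul_sum, ← sum_sub_distrib]
  exact sum_comm

theorem hol_aff (hτ : InH τ) {f : (ι ⊕ ι → ℝ) → ℂ} (hf : f ∈ Hol τ 1) (c : J → ℝ)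
    (b : J → ι ⊕ ι → ℝ) (h1 : ∑ j, c j ^ 2 = 1) (h2 : ∑ j, c j • b j = 0) :
    (fun z => ∏ j, f (c j • z + b j)) ∈ Hol τ 1 := by
  have h := hol_prod (fun j => Hol.scale (Hol.U hτ.1 hf (b j)) (c j)) univ
  simp only [one_mul, h1] at h
  refine (congrArg (· ∈ Hol τ 1) (funext fun z => ?_)).mp h
  simp only [Finset.prod_apply, U_apply, prod_mul_distrib, ← ee_sum]
  have h3 : ∑ j, E (b j) (c j • z) = 0 := by
    have := E_sum z fun j => c j • b j
    rw [h2, E_zero_right] at this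
    rw [← neg_eq_zero, ← sum_neg_distrib, this]
    exact sum_congr rfl fun j _ => by rw [E_smul_right, E_smul_right, E_swap z, mul_neg, neg_neg]
  rw [← sum_div, ← mul_sum, ← Complex.ofReal_sum, h3]
  simp

/-- The reflection. -/
def gm (N : ℕ) (x : J → ι ⊕ ι → ℝ) : J → ι ⊕ ι → ℝ := fun k => x k - (N : ℝ)⁻¹ • ∑ j, x j

/-- The shifted product. -/
def Wz (τ : Matrix ι ι ℂ) (N : ℕ) (n : ι ⊕ ι → ℤ) (x : J → ι ⊕ ι → ℝ) : ℂ :=
  ∏ k, U 1 ((N : ℝ)⁻¹ • rz n) (Th τ) (x k)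

/-- Representatives modulo `N`. -/
def lf {κ : Type} (n : κ → ZMod N) : κ → ℤ := fun i => ((n i).val : ℤ)

theorem Wz_eq (n : ι ⊕ ι → ℤ) (x : J → ι ⊕ ι → ℝ) : Wz τ N n x =
    ee (E ((N : ℝ)⁻¹ • rz n) (∑ j, x j) / 2) * ∏ k, Th τ (x k + (N : ℝ)⁻¹ • rz n) := by
  simp only [Wz, U_apply, prod_mul_distrib, ← ee_sum, E_sum]
  rw [← sum_div, ← mul_sum]
  simp

variable [NeZero N]

theorem sum_shift {κ : Type} [Fintype κ] [DecidableEq κ] (f : (κ → ℤ) → ℂ)
    (hf : ∀ n k, f (n + (N : ℤ) • k) = f n) (m : κ → ℤ) :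
    ∑ n : κ → ZMod N, f (lf n + m) = ∑ n : κ → ZMod N, f (lf n) := by
  refine Fintype.sum_equiv (Equiv.addRight fun i => (m i : ZMod N)) _ _ fun n => ?_
  have h : ∀ i, ∃ k : ℤ, lf n i + m i = lf (n + fun i => (m i : ZMod N)) i + N * k := fun i => by
    obtain ⟨k, hk⟩ := (ZMod.intCast_eq_intCast_iff_dvd_sub
      (lf (n + fun i => (m i : ZMod N)) i) (lf n i + m i) N).1 (by simp [lf])
    exact ⟨k, by rw [← hk]; ring⟩
  choose k hk using h
  rw [show lf n + m = lf (n + fun i => (m i : ZMod N)) + (N : ℤ) • k from funext hk, hf]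
  rfl

theorem N_ne : (N : ℝ) ≠ 0 := Nat.cast_ne_zero.2 (NeZero.ne N)

theorem sum_ee (m : ι ⊕ ι → ZMod N) :
    ∑ n : ι ⊕ ι → ZMod N, ee (E ((N : ℝ)⁻¹ • rz (lf m)) (rz (lf n))) =
      if m = 0 then ((N : ℂ) ^ Fintype.card ι) ^ 2 else 0 := by
  split_ifs with h
  · have : lf (0 : ι ⊕ ι → ZMod N) = 0 := funext fun i => by simp [lf]
    simp [h, this, ← pow_mul, mul_two]
  · by_contra hc
    obtain ⟨k, hk⟩ := exists_rz_of_E (d := (N : ℝ)⁻¹ • rz (lf m)) fun n₀ => by
      have := sum_shift (N := N) (fun n => ee (E ((N : ℝ)⁻¹ • rz (lf m)) (rz n)))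
        (fun n k => by
          rw [rz_add, rz_smul, E_add_right, E_smul_right, E_smul_left _ _ (rz k), Int.cast_natCast,
            mul_inv_cancel_left₀ N_ne, Complex.ofReal_add, ee_add, ee_E_rz, mul_one]) n₀
      simp only [rz_add, E_add_right, Complex.ofReal_add, ee_add, ← sum_mul] at this
      exact (mul_eq_left₀ hc).1 this
    refine h (funext fun i => ?_)
    have h1 := congrFun hk i
    simp only [Pi.smul_apply, rz, smul_eq_mul, inv_mul_eq_iff_eq_mul₀ (N_ne (N := N))] at h1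
    have h2 : lf m i = N * k i := by exact_mod_cast h1
    simpa [lf] using congrArg (Int.cast : ℤ → ZMod N) h2

variable (hJ : Fintype.card J = 2 * N)
include hJ

theorem sum_const' (y : ι ⊕ ι → ℝ) : ∑ _j : J, (N : ℝ)⁻¹ • y = (2 : ℝ) • y := by
  rw [sum_const, card_univ, hJ, ← Nat.cast_smul_eq_nsmul ℝ, smul_smul]
  congr 1
  push_cast
  rw [mul_inv_cancel_right₀ N_ne]

theorem sum_gm (x : J → ι ⊕ ι → ℝ) : ∑ k, gm N x k = -∑ k, x k := by
  simp only [gm, sum_sub_distrib, sum_const' hJ, two_smul]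
  abel

theorem gm_gm (x : J → ι ⊕ ι → ℝ) (y : ι ⊕ ι → ℝ) :
    gm N (fun k => gm N x k + (N : ℝ)⁻¹ • y) = fun k => x k - (N : ℝ)⁻¹ • y := by
  funext k
  rw [gm, sum_add_distrib, sum_gm hJ, sum_const' hJ, gm]
  module

theorem Wz_per (x : J → ι ⊕ ι → ℝ) (n k : ι ⊕ ι → ℤ) :
    Wz τ N (n + (N : ℤ) • k) x = Wz τ N n x := by
  rw [Wz, Wz, rz_add, rz_smul, smul_add, smul_smul, Int.cast_natCast, inv_mul_cancel₀ N_ne,
    one_smul, U_add_rz_Th]
  simp only [Pi.smul_apply, smul_eq_mul, prod_mul_distrib, prod_const, card_univ, hJ]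
  rw [pow_mul, chi_sq, one_pow, one_mul, ← ee_nat_mul, E_smul_left,
    show ((2 * N : ℕ) : ℂ) * ((((N : ℝ)⁻¹ * E (rz n) (rz k) : ℝ) : ℂ) / 2) = E (rz n) (rz k) by
      have : (N : ℂ) ≠ 0 := Nat.cast_ne_zero.2 (NeZero.ne N)
      push_cast
      field_simp, ee_E_rz, one_mul]

theorem rel_mem (hτ : InH τ) (x : J → ι ⊕ ι → ℝ) (i : J) :
    (fun z => ∑ n : ι ⊕ ι → ZMod N, Wz τ N (lf n) (gm N (update x i z))) ∈ Gam τ 1 0 := by
  have hs : ∀ z, ∑ j, update x i z j = z + ∑ j, update x i 0 j := fun z => by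
    rw [sum_update_of_mem (mem_univ i), sum_update_of_mem (mem_univ i), zero_add]
  refine mem_Gam.2 ⟨?_, fun l => funext fun z => ?_⟩
  · rw [← Finset.sum_fn, Nat.cast_one]
    refine Submodule.sum_mem _ fun n _ => ?_
    have h := hol_aff hτ (Hol.U hτ.1 (Th_mem_Hol hτ) ((N : ℝ)⁻¹ • rz (lf n)))
      (fun k => (if k = i then 1 else 0) - (N : ℝ)⁻¹) (gm N (update x i 0)) (by
        simp only [sub_sq, sum_add_distrib, sum_sub_distrib, sum_const, card_univ, hJ, ite_pow,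
          mul_ite, ite_mul, nsmul_eq_mul]
        have := N_ne (N := N)
        simp
        field_simp
        ring) (by
        simp only [sub_smul, sum_sub_distrib, ite_smul, one_smul, zero_smul, sum_ite_eq', mem_univ,
          if_true, ← smul_sum, sum_gm hJ]
        simp [gm])
    refine (congrArg (· ∈ Hol τ 1) (funext fun z => prod_congr rfl fun k _ => ?_)).mp h
    congr 1
    rw [gm, gm, hs z]
    by_cases hk : k = i
    · subst hk
      simp only [if_true, update_self]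
      module
    · simp only [if_neg hk, update_of_ne hk]
      module
  · rw [U_apply, Pi.smul_apply, smul_eq_mul, 
      ← sum_shift (fun n => Wz τ N n (gm N (update x i z))) (Wz_per hJ _) (-l), mul_sum, mul_sum]
    refine sum_congr rfl fun n _ => ?_
    have h1 : ∀ w, Th τ (w + rz l) = chi l * ee (-(E (rz l) w / 2)) * Th τ w := fun w => by
      have := congrFun (U_rz_Th τ l) w
      rw [U_apply, Pi.smul_apply, smul_eq_mul] at this
      rw [mul_right_comm, ← this, ee_neg]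
      simp [ee_ne_zero, mul_right_comm]
    have h2 : ∀ k, gm N (update x i (z + rz l)) k + (N : ℝ)⁻¹ • rz (lf n) =
        gm N (update x i z) k + (N : ℝ)⁻¹ • rz (lf n + -l) + if k = i then rz l else 0 :=
      fun k => by
        rw [gm, gm, hs, hs z, rz_add, rz_neg]
        by_cases hk : k = i
        · subst hk
          simp only [if_true, update_self]
          module
        · simp only [if_neg hk, update_of_ne hk]
          module
    rw [Wz_eq, Wz_eq, sum_gm hJ, sum_gm hJ, ← mul_prod_erase _ _ (mem_univ i),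
      ← mul_prod_erase _ _ (mem_univ i), h2, if_pos rfl, h1,
      prod_congr rfl fun k hk => by rw [h2, if_neg (ne_of_mem_erase hk), add_zero]]
    simp only [← mul_assoc, pow_one, E_zero_left, Complex.ofReal_zero, ee_zero, mul_one]
    congr 2
    rw [mul_right_comm, mul_comm _ (chi l), mul_assoc, ← ee_add, ← ee_add]
    congr 2
    simp only [gm, hs (z + rz l), hs z, update_self, rz_add, rz_neg, smul_add, smul_neg,
      E_add_left, E_add_right, E_neg_left, E_neg_right, E_sub_right, E_smul_left, E_smul_right,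
      E_self, E_swap (rz l) (rz (lf n))]
    push_cast
    ring

theorem relation (hτ : InH τ) : ∃ c : ℂ, c ^ 2 = ((N : ℂ) ^ Fintype.card ι) ^ 2 ∧
    ∀ x : J → ι ⊕ ι → ℝ,
      ∑ n : ι ⊕ ι → ZMod N, Wz τ N (lf n) (gm N x) = c * ∏ j, Th τ (x j) := by
  obtain ⟨c, hc⟩ := slot hτ (fun x => ∑ n : ι ⊕ ι → ZMod N, Wz τ N (lf n) (gm N x))
    (rel_mem hJ hτ)
  refine ⟨c, ?_, hc⟩
  obtain ⟨u, hu⟩ : ∃ u, Th τ u ≠ 0 := (exists_null_ne_zero hτ).elim fun _ h => ⟨_, h⟩
  obtain ⟨x, hx⟩ : ∃ x : J → ι ⊕ ι → ℝ, ∏ j, Th τ (x j) ≠ 0 :=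
    ⟨fun _ => u, prod_ne_zero_iff.2 fun _ _ => hu⟩
  have h1 : ∀ n' : ι ⊕ ι → ZMod N, c * Wz τ N (lf n') (gm N x) = ∑ m : ι ⊕ ι → ZMod N,
      ee (E ((N : ℝ)⁻¹ • rz (lf m)) (rz (lf (-n')))) * Wz τ N (lf m) x := fun n' => by
    have h3 : ∀ m : ι ⊕ ι → ℤ, ee (E ((N : ℝ)⁻¹ • rz m) (rz (lf (-n')))) =
        ee (-E ((N : ℝ)⁻¹ • rz m) (rz (lf n'))) := fun m => by
      obtain ⟨k, hk⟩ : ∃ k : ι ⊕ ι → ℤ, lf (-n') = -lf n' + (N : ℤ) • k := by
        have h : ∀ i, ∃ k : ℤ, lf (-n') i = -lf n' i + N * k := fun i => by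
          obtain ⟨k, hk⟩ := (ZMod.intCast_eq_intCast_iff_dvd_sub
            (-lf n' i) (lf (-n') i) N).1 (by simp [lf])
          exact ⟨k, by rw [← hk]; ring⟩
        choose k hk using h
        exact ⟨k, funext hk⟩
      rw [hk, rz_add, rz_neg, rz_smul, E_add_right, E_smul_right, E_smul_left _ _ (rz k),
        Int.cast_natCast, mul_inv_cancel_left₀ N_ne, Complex.ofReal_add, ee_add, ee_E_rz, mul_one,
        E_neg_right, Complex.ofReal_neg]
    rw [Wz_eq, mul_left_comm, ← hc, gm_gm hJ,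
      ← sum_shift (fun n => Wz τ N n fun k => x k - (N : ℝ)⁻¹ • rz (lf n')) (Wz_per hJ _) (lf n'),
      mul_sum]
    refine sum_congr rfl fun m _ => ?_
    rw [h3, Wz_eq, Wz_eq, sum_gm hJ, sum_sub_distrib, sum_const' hJ, ← mul_assoc, ← mul_assoc,
      ← ee_add, ← ee_add]
    congr 1
    · congr 1
      simp only [rz_add, smul_add, E_add_left, E_neg_right, E_sub_right, E_smul_left, E_smul_right,
        E_self]
      push_cast
      ring
    · refine prod_congr rfl fun k _ => congrArg _ ?_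
      rw [rz_add]
      module
  refine mul_right_cancel₀ hx ?_
  rw [sq, mul_assoc, ← hc, mul_sum, sum_congr rfl fun n' _ => h1 n', sum_comm]
  simp only [← sum_mul]
  have h4 : ∀ m : ι ⊕ ι → ZMod N,
      ∑ n' : ι ⊕ ι → ZMod N, ee (E ((N : ℝ)⁻¹ • rz (lf m)) (rz (lf (-n')))) =
        if m = 0 then ((N : ℂ) ^ Fintype.card ι) ^ 2 else 0 := fun m => by
    rw [← sum_ee m]
    exact Fintype.sum_equiv (Equiv.neg _) _ _ fun _ => rfl
  have h5 : lf (0 : ι ⊕ ι → ZMod N) = 0 := funext fun i => by simp [lf]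
  simp [h4, h5, Wz]

end RG.B2.RT
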