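import Pool.Agent.Lib.MP_e97e2b_nt.RT.Loc.Defs
import Pool.Agent.Lib.MP_e97e2b_nt.RT.Loc.Rie
import Pool.Agent.Lib.MP_e97e2b_nt.RT.G.RedA

/-!
The absolute value of the theta function at a place.
-/

set_option autoImplicit false
set_option linter.unusedSectionVars false

noncomputable section

namespace RG.B2.RT

open M4 M4.B2 Matrix Finset

variable [Dim] {τ : Mat} {P : Nat.Primes} (e : ℂ ≃+* PadicAlgCl P)

theorem norm_U (y q : ν → ℚ) (f : (ν → ℝ) → ℂ) :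
    ‖e (U 1 (rQ y) f (rQ q))‖ = ‖e (f (rQ (q + y)))‖ := by
  have h := norm_e_psi e (qA (EB y q / 2))
  rw [psi_qA] at h
  rw [U_apply, map_mul, norm_mul, E_rQ, rQ_add]
  push_cast at h ⊢
  rw [one_mul, h, one_mul]

variable (τ) in
/-- The absolute value of the theta function. -/
def A0 (z : VA) : ℝ := ‖e (Th τ (rQ (ratV z)))‖

theorem A0_nonneg (z : VA) : 0 ≤ A0 τ e z := norm_nonneg _

theorem A0_eq (q : ν → ℚ) {t : VA} (ht : t ∈ TA) : A0 τ e (qV q + t) = ‖e (Th τ (rQ q))‖ := by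
  have h1 : qV (ratV (qV q + t) - q) ∈ TA := by
    have := TA.sub_mem ht (ratV_spec (qV q + t))
    rw [qV_sub]
    rwa [show t - (qV q + t - qV (ratV (qV q + t))) = qV (ratV (qV q + t)) - qV q by abel] at this
  obtain ⟨l, hl⟩ := qV_mem_TA.1 h1
  rw [A0, show ratV (qV q + t) = q + zQ l by rw [← hl]; abel, ← norm_U, rQ_zQ, U_rz_Th,
    Pi.smul_apply, smul_eq_mul, map_mul, norm_mul,
    norm_root two_pos (by rw [← map_pow, chi_sq, map_one]), one_mul]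

theorem A0_qV (q : ν → ℚ) : A0 τ e (qV q) = ‖e (Th τ (rQ q))‖ := by
  simpa using A0_eq (τ := τ) e q TA.zero_mem

theorem A0_per (z : VA) {t : VA} (ht : t ∈ TA) : A0 τ e (z + t) = A0 τ e z := by
  obtain ⟨q, s, hs, rfl⟩ := exists_split z
  rw [add_assoc, A0_eq e q (TA.add_mem hs ht), A0_eq e q hs]

theorem A0_congr {z z' : VA} (h : z - z' ∈ TA) : A0 τ e z = A0 τ e z' := by
  rw [← A0_per e z' h, add_sub_cancel]

theorem A0_neg (z : VA) : A0 τ e (-z) = A0 τ e z := by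
  obtain ⟨q, s, hs, rfl⟩ := exists_split z
  have h : -qV q = qV (-q) := by rw [← zero_sub, ← qV_zero, ← qV_sub, zero_sub]
  rw [neg_add, h, A0_eq e _ (TA.neg_mem hs), A0_eq e q hs, ← Th_neg τ (rQ q), ← zero_sub, rQ_sub,
    rQ_zero, zero_sub]

/-- Representatives of the points of order `M`. -/
def qM {M : ℕ} (a : ν → Fin M) : VA := qV fun i => ((a i : ℕ) : ℚ) / M

theorem qM_mem {M : ℕ} (a : ν → Fin M) : M • qM a ∈ TA := mem_TA.2 fun i => by
  rw [Pi.smul_apply, qM, qV, qA, ← map_nsmul, nsmul_eq_mul,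
    mul_div_cancel₀ _ (Nat.cast_ne_zero.2 (a i).pos.ne'), map_natCast]
  exact natCast_mem Zh _

theorem exists_qM {M : ℕ} (hM : 0 < M) {z : VA} (hz : M • z ∈ TA) :
    ∃ a : ν → Fin M, z - qM a ∈ TA := by
  obtain ⟨q, t, ht, rfl⟩ := exists_split z
  have h1 := split_mem ht hz
  rw [← Nat.cast_smul_eq_nsmul ℚ, ← qV_smul] at h1
  obtain ⟨l, hl⟩ := qV_mem_TA.1 h1
  have h0 : (0 : ℤ) < M := by exact_mod_cast hM
  refine ⟨fun i => ⟨(l i % M).toNat, by have := Int.emod_lt_of_pos (l i) h0; omega⟩, ?_⟩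
  rw [add_sub_right_comm, qM, ← qV_sub]
  refine TA.add_mem (qV_mem_TA.2 ⟨fun i => l i / M, funext fun i => ?_⟩) ht
  have h2 : (M : ℚ) * q i = l i := congrFun hl i
  have h3 : (((l i % M).toNat : ℕ) : ℚ) = ((l i % M : ℤ) : ℚ) := by
    exact_mod_cast Int.toNat_of_nonneg (Int.emod_nonneg _ h0.ne')
  have h4 : ((l i % M : ℤ) : ℚ) + M * ((l i / M : ℤ) : ℚ) = l i := by
    exact_mod_cast Int.emod_add_mul_ediv (l i) M
  have h5 : (M : ℚ) ≠ 0 := by exact_mod_cast hM.ne'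
  simp only [Pi.sub_apply, zQ, h3]
  field_simp
  linear_combination h2 - h4

theorem rQ_half (k : ν → ℤ) : rQ ((1 / 2 : ℚ) • zQ k) = hf k := by
  rw [rQ_smul, rQ_zQ, hf]
  norm_num

theorem qM_eq (i : Bits) : qM i = qV ((1 / 2 : ℚ) • zQ (bz i)) :=
  congrArg qV (funext fun k => by simp [zQ, bz, div_eq_inv_mul])

theorem A0_hf (k : ν → ℤ) : A0 τ e (qV ((1 / 2 : ℚ) • zQ k)) = ‖e (Th τ (hf k))‖ := by
  rw [A0_qV, rQ_half]

theorem norm_XA (hτ : InH τ) (i0 i : Bits) (z : VA) :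
    ‖e (XA τ i0 i z)‖ = A0 τ e (2 • z + qM i) / A0 τ e (qM i0) := by
  obtain ⟨q, t, ht, rfl⟩ := exists_split z
  have h : 2 • (qV q + t) + qM i = qV ((2 : ℚ) • q + (1 / 2 : ℚ) • zQ (bz i)) + 2 • t := by
    rw [qM_eq, qV_add, qV_smul 2]
    module
  rw [XA_eq hτ i0 i q ht, h, A0_eq e _ (TA.nsmul_mem ht 2), qM_eq, A0_hf, ← norm_U, rQ_half,
    rQ_smul, map_mul, norm_mul, norm_e_psi, one_mul, YY, Pi.smul_apply, smul_eq_mul, map_mul,
    norm_mul, map_inv₀, norm_inv, div_eq_inv_mul]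
  rfl

theorem rie_A0 (hτ : InH τ) {J : Type} [Fintype J] [DecidableEq J] {N : ℕ} (hN : 0 < N)
    (hJ : Fintype.card J = 2 * N) (x : J → VA) : ∃ η : VA, N • η ∈ TA ∧
      ‖(N : PadicAlgCl P)‖ ^ Fintype.card ι * ∏ j, A0 τ e (x j) ≤
        ∏ j, A0 τ e (x j - (N : ℚ)⁻¹ • ∑ k, x k + η) := by
  have : NeZero N := ⟨hN.ne'⟩
  obtain ⟨c, hc, h⟩ := relation (τ := τ) hJ hτ
  choose q t ht hx using fun j => exists_split (x j)
  have h1 : ‖e c‖ = ‖(N : PadicAlgCl P)‖ ^ Fintype.card ι := by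
    have := congrArg (fun z => ‖e z‖) hc
    simp only [map_pow, norm_pow, map_natCast] at this
    exact (pow_left_inj₀ (norm_nonneg _) (by positivity) two_ne_zero).1 this
  have h2 := congrArg e (h fun j => rQ (q j))
  rw [map_sum] at h2
  obtain ⟨n, -, hn⟩ := IsUltrametricDist.exists_norm_finsetSum_le univ
    fun n : ν → ZMod N => e (Wz τ N (lf n) (gm N fun j => rQ (q j)))
  have h0 : (N : ℚ) ≠ 0 := Nat.cast_ne_zero.2 hN.ne'
  have hs : ∀ s : Finset J, qV (∑ k ∈ s, q k) = ∑ k ∈ s, qV (q k) ∧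
      rQ (∑ k ∈ s, q k) = ∑ k ∈ s, rQ (q k) := fun s => by
    induction s using Finset.induction_on with
    | empty => simp
    | insert j s hj ih => simp only [sum_insert hj, qV_add, rQ_add, ih, and_self]
  refine ⟨(N : ℚ)⁻¹ • (qV (zQ (lf n)) + ∑ k, t k), ?_, ?_⟩
  · rw [← Nat.cast_smul_eq_nsmul ℚ, smul_inv_smul₀ h0]
    exact TA.add_mem (qV_zQ_mem _) (TA.sum_mem fun k _ => ht k)
  · rw [h2, map_mul, norm_mul, h1, map_prod, norm_prod, Wz, map_prod, norm_prod] at hn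
    refine le_of_eq_of_le (congrArg _ (prod_congr rfl fun j _ => by rw [hx, A0_eq e _ (ht j)]))
      (hn.trans_eq (prod_congr rfl fun j _ => ?_))
    have h3 : x j - (N : ℚ)⁻¹ • ∑ k, x k + (N : ℚ)⁻¹ • (qV (zQ (lf n)) + ∑ k, t k) =
        qV (q j - (N : ℚ)⁻¹ • ∑ k, q k + (N : ℚ)⁻¹ • zQ (lf n)) + t j := by
      simp only [hx, sum_add_distrib, qV_add, qV_sub, qV_smul, (hs univ).1]
      module
    rw [h3, A0_eq e _ (ht j), ← norm_U, rQ_sub, rQ_smul, rQ_smul, rQ_zQ, (hs univ).2]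
    push_cast
    rfl

variable (τ) in
/-- The maximum over the translates by points of order two. -/
def Mx (z : VA) : ℝ := (univ : Finset Bits).sup' univ_nonempty fun i => A0 τ e (z + qM i)

theorem le_Mx (z : VA) {η : VA} (h : 2 • η ∈ TA) : A0 τ e (z + η) ≤ Mx τ e z := by
  obtain ⟨i, hi⟩ := exists_qM two_pos h
  rw [A0_congr e (z' := z + qM i) (by rwa [add_sub_add_left_eq_sub])]
  exact le_sup' (fun i => A0 τ e (z + qM i)) (mem_univ i)

theorem exists_Mx (z : VA) : ∃ i : Bits, Mx τ e z = A0 τ e (z + qM i) :=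
  (exists_mem_eq_sup' univ_nonempty fun i => A0 τ e (z + qM i)).imp fun _ h => h.2

theorem Mx_pos (hτ : InH τ) (z : VA) : 0 < Mx τ e z := by
  obtain ⟨q, t, ht, rfl⟩ := exists_split z
  obtain ⟨i, hi, -⟩ := Th_nv hτ (rQ q) 0
  refine lt_of_lt_of_le ?_ (le_Mx e _ (qM_mem i))
  rw [add_right_comm, qM_eq, ← qV_add, A0_eq e _ ht, rQ_add, rQ_half]
  exact norm_pos_iff.2 ((_root_.map_ne_zero _).2 hi)

variable (τ) in
/-- The normalised absolute value. -/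
def An (z : VA) : ℝ := A0 τ e z / Mx τ e 0

variable (τ) in
/-- The normalised maximum. -/
def Nv (z : VA) : ℝ := Mx τ e z / Mx τ e 0

variable (hτ : InH τ)
include hτ

theorem An_nonneg (z : VA) : 0 ≤ An τ e z := div_nonneg (A0_nonneg e z) (Mx_pos e hτ 0).le

theorem Nv_pos (z : VA) : 0 < Nv τ e z := div_pos (Mx_pos e hτ z) (Mx_pos e hτ 0)

theorem Nv_zero : Nv τ e 0 = 1 := div_self (Mx_pos e hτ 0).ne'

theorem le_Nv {z z' : VA} (h : 2 • (z - z') ∈ TA) : An τ e z ≤ Nv τ e z' := by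
  have := le_Mx (τ := τ) e z' h
  rw [add_sub_cancel] at this
  exact div_le_div_of_nonneg_right this (Mx_pos e hτ 0).le

omit hτ in
theorem exists_Nv (z : VA) : ∃ η : VA, 2 • η ∈ TA ∧ An τ e (z + η) = Nv τ e z := by
  obtain ⟨i, hi⟩ := exists_Mx (τ := τ) e z
  exact ⟨qM i, qM_mem i, by rw [An, Nv, hi]⟩

omit hτ in
theorem An_neg (z : VA) : An τ e (-z) = An τ e z := by rw [An, A0_neg, An]

omit hτ in
theorem An_congr {z z' : VA} (h : z - z' ∈ TA) : An τ e z = An τ e z' := by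
  rw [An, A0_congr e h, An]

theorem Nv_congr {z z' : VA} (h : 2 • (z - z') ∈ TA) : Nv τ e z = Nv τ e z' := by
  have key : ∀ {z z' : VA}, 2 • (z - z') ∈ TA → Nv τ e z ≤ Nv τ e z' := fun {z z'} h => by
    obtain ⟨η, h1, h2⟩ := exists_Nv (τ := τ) e z
    rw [← h2]
    exact le_Nv e hτ (by rw [add_sub_right_comm, nsmul_add]; exact TA.add_mem h h1)
  exact le_antisymm (key h) (key (by rw [← neg_sub, smul_neg]; exact TA.neg_mem h))

theorem Nv_neg (z : VA) : Nv τ e (-z) = Nv τ e z := by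
  have key : ∀ z : VA, Nv τ e (-z) ≤ Nv τ e z := fun z => by
    obtain ⟨η, h1, h2⟩ := exists_Nv (τ := τ) e (-z)
    rw [← h2, ← An_neg]
    exact le_Nv e hτ (by
      rw [show -(-z + η) - z = -η by abel, smul_neg]
      exact TA.neg_mem h1)
  exact le_antisymm (key z) (by simpa using key (-z))

theorem rie_An {J : Type} [Fintype J] [DecidableEq J] {N : ℕ} (hN : 0 < N)
    (hJ : Fintype.card J = 2 * N) (x : J → VA) : ∃ η : VA, N • η ∈ TA ∧
      ‖(N : PadicAlgCl P)‖ ^ Fintype.card ι * ∏ j, An τ e (x j) ≤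
        ∏ j, An τ e (x j - (N : ℚ)⁻¹ • ∑ k, x k + η) := by
  obtain ⟨η, h1, h2⟩ := rie_A0 e hτ hN hJ x
  refine ⟨η, h1, ?_⟩
  simp only [An, prod_div_distrib, ← mul_div_assoc]
  exact div_le_div_of_nonneg_right h2 (prod_nonneg fun _ _ => (Mx_pos e hτ 0).le)

theorem Nv_bound {M : ℕ} (hM : 0 < M) :
    ∃ δ C : ℝ, 0 < δ ∧ ∀ z : VA, M • z ∈ TA → δ ≤ Nv τ e z ∧ Nv τ e z ≤ C := by
  have : Nonempty (ν → Fin M) := ⟨fun _ => ⟨0, hM⟩⟩
  obtain ⟨a, ha⟩ := Finite.exists_min fun a : ν → Fin M => Nv τ e (qM a)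
  obtain ⟨b, hb⟩ := Finite.exists_max fun a : ν → Fin M => Nv τ e (qM a)
  refine ⟨_, Nv τ e (qM b), Nv_pos e hτ (qM a), fun z hz => ?_⟩
  obtain ⟨c, hc⟩ := exists_qM hM hz
  rw [Nv_congr e hτ (TA.nsmul_mem hc 2)]
  exact ⟨ha c, hb c⟩

end RG.B2.RT
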